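import Mathlib

/-!
Differential operators of first and second order on a module with two commuting connections, with the
weights of tensor densities.
-/

set_option autoImplicit false

namespace Pool.Agent.T2h10.WV

variable {F C M : Type*} [Field F] [CommRing C] [Algebra F C] [AddCommGroup M] [Module F M]
  [Module C M] [IsScalarTower F C M]

/-- The data: two commuting derivations of `C` and two commuting connections on `M`. -/
structure Conn (F C M : Type*) [Field F] [CommRing C] [Algebra F C] [AddCommGroup M] [Module F M]
    [Module C M] [IsScalarTower F C M] where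
  ds : Derivation F C C
  dt : Derivation F C C
  P : M →ₗ[F] M
  Q : M →ₗ[F] M
  comm : ∀ c, dt (ds c) = ds (dt c)
  hP : ∀ (c : C) (m : M), P (c • m) = c • P m + ds c • m
  hQ : ∀ (c : C) (m : M), Q (c • m) = c • Q m + dt c • m
  hPQ : ∀ m, Q (P m) = P (Q m)

variable (D : Conn F C M) (la mu : F)

/-- `A ∂_t + B ∂_s` with the weights `mu`, `la`. -/
def V (A B : C) : M →ₗ[F] M where
  toFun m := A • D.Q m + (mu • D.dt A) • m + B • D.P m + (la • D.ds B) • m
  map_add' x y := by simp only [map_add, smul_add]; abel
  map_smul' r x := by
    simp only [map_smul, RingHom.id_apply, smul_add]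
    simp only [← algebraMap_smul C r]
    simp only [smul_smul]
    congr 1; congr 1; congr 1
    all_goals
      rw [mul_comm]

theorem V_apply (A B : C) (m : M) :
    V D la mu A B m = A • D.Q m + (mu • D.dt A) • m + B • D.P m + (la • D.ds B) • m := rfl

/-- The normally ordered product. -/
def K (E : C) : M →ₗ[F] M where
  toFun m := E • D.P (D.Q m) + (la • D.ds E) • D.Q m + (mu • D.dt E) • D.P m +
    ((la * mu) • D.ds (D.dt E)) • m
  map_add' x y := by simp only [map_add, smul_add]; abel
  map_smul' r x := by
    simp only [map_smul, RingHom.id_apply, smul_add]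
    simp only [← algebraMap_smul C r]
    simp only [smul_smul]
    congr 1; congr 1; congr 1
    all_goals
      rw [mul_comm]

theorem K_apply (E : C) (m : M) :
    K D la mu E m = E • D.P (D.Q m) + (la • D.ds E) • D.Q m + (mu • D.dt E) • D.P m +
    ((la * mu) • D.ds (D.dt E)) • m := rfl

theorem V_bracket (A B A' B' : C) (m : M) :
    V D la mu A B (V D la mu A' B' m) - V D la mu A' B' (V D la mu A B m) =
      V D la mu (A * D.dt A' + B * D.ds A' - A' * D.dt A - B' * D.ds A)
        (A * D.dt B' + B * D.ds B' - A' * D.dt B - B' * D.ds B) m -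
      ((la - mu) • (D.ds A * D.dt B' - D.ds A' * D.dt B)) • m := by
  simp only [V_apply, map_add, D.hP, D.hQ, Derivation.leibniz, map_sub, D.comm, D.hPQ,
    smul_eq_mul, Algebra.smul_def, Derivation.map_algebraMap]
  module

end Pool.Agent.T2h10.WV
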