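import Pool.Agent.T2h10.WV.Alg

set_option autoImplicit false
set_option linter.unusedSimpArgs false

namespace Pool.Agent.T2h10.WV

variable {F C M : Type*} [Field F] [CommRing C] [Algebra F C] [AddCommGroup M] [Module F M]
  [Module C M] [IsScalarTower F C M]

variable (D : Conn F C M) (la mu : F)

theorem V_mul_V (A B A' B' : C) (m : M) (hA : D.ds A = 0) (hA' : D.ds A' = 0) (hB : D.dt B = 0)
    (hB' : D.dt B' = 0) :
    V D la mu A B (V D la mu A' B' m) =
      (B * B') • D.P (D.P m) + (B * D.ds B' + la • (B * D.ds B') + la • (D.ds B * B')) • D.P m +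
        (la • (B * D.ds (D.ds B')) + (la * la) • (D.ds B * D.ds B')) • m +
      ((A * A') • D.Q (D.Q m) + (A * D.dt A' + mu • (A * D.dt A') + mu • (D.dt A * A')) • D.Q m +
        (mu • (A * D.dt (D.dt A')) + (mu * mu) • (D.dt A * D.dt A')) • m) +
      K D la mu (B * A') m + K D la mu (A * B') m := by
  have e1 : D.ds (D.dt A') = 0 := by rw [← D.comm, hA', map_zero]
  have e2 : D.dt (D.ds B') = 0 := by rw [D.comm, hB', map_zero]
  have e3 : D.ds (D.dt A) = 0 := by rw [← D.comm, hA, map_zero]
  have e4 : D.dt (D.ds B) = 0 := by rw [D.comm, hB, map_zero]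
  simp only [V_apply, K_apply, map_add, D.hP, D.hQ, Derivation.leibniz, map_sub, D.comm, D.hPQ, map_smul,
    smul_eq_mul, Algebra.smul_def, Derivation.map_algebraMap, hA, hA', hB, hB', e1, e2, e3, e4, map_zero]
  module

/-- The sum of five products which is a first order operator. -/
theorem five (s t E : C) (m : M) (h1 : D.ds s = 1) (h2 : D.dt s = 0) (h3 : D.ds t = 0)
    (h4 : D.dt t = 1) :
    K D la mu E (V D la mu (t ^ 4) (s ^ 4) m) + K D la mu (-2 * (s + t) * E) (V D la mu (t ^ 3) (s ^ 3) m) +
      K D la mu (((s + t) ^ 2 + 2 * (s * t)) * E) (V D la mu (t ^ 2) (s ^ 2) m) +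
      K D la mu (-2 * (s + t) * (s * t) * E) (V D la mu t s m) +
      K D la mu ((s * t) ^ 2 * E) (V D la mu 1 1 m) =
    V D la mu ((2 * la * (1 - la)) • ((s - t) ^ 2 * E)) ((2 * mu * (1 - mu)) • ((s - t) ^ 2 * E)) m := by
  have n1 : D.ds (2 : C) = 0 := by
    have := D.ds.map_natCast 2
    simpa using this
  have n2 : D.dt (2 : C) = 0 := by
    have := D.dt.map_natCast 2
    simpa using this
  have n3 : D.ds (3 : C) = 0 := by
    have := D.ds.map_natCast 3
    simpa using this
  have n4 : D.dt (3 : C) = 0 := by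
    have := D.dt.map_natCast 3
    simpa using this
  have n5 : D.ds (4 : C) = 0 := by
    have := D.ds.map_natCast 4
    simpa using this
  have n6 : D.dt (4 : C) = 0 := by
    have := D.dt.map_natCast 4
    simpa using this
  simp only [V_apply, K_apply, map_add, D.hP, D.hQ, Derivation.leibniz, Derivation.leibniz_pow, map_sub,
    n3, n4, n5, n6, D.hPQ, map_neg, h1, h2, h3, h4, map_zero, Derivation.map_one_eq_zero, n1, n2,
    smul_eq_mul, Algebra.smul_def, Derivation.map_algebraMap, map_mul, map_ofNat, map_one,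
    nsmul_eq_mul, Nat.cast_ofNat, smul_zero, mul_zero, add_zero, zero_add, mul_one, neg_zero, zero_mul,
    zero_smul, Nat.add_one_sub_one, Nat.reduceSub, pow_one, smul_add, neg_smul]
  module

end Pool.Agent.T2h10.WV
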