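import Pool.Agent.T2h10.WV.LW

/-!
No linear map `Y` from the Laurent polynomials in two variables with `Y p * Y q = Y 1 * Y (p * q)`
to the Weyl algebra with one inverted variable is injective.
-/

set_option autoImplicit false
set_option linter.unusedSimpArgs false

namespace Pool.Agent.T2h10.WV

open AddMonoidAlgebra

variable {F : Type*} [Field F] {m : ℕ}

/-- Laurent polynomials in `t` with exponents of absolute value at most `R`. -/
noncomputable def WR (F : Type*) [Field F] (m : ℕ) (R : ℕ) : Submodule F (LP F m) :=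
  Submodule.span F ((fun n : ℤ => vt F m n) '' Set.Icc (-(R : ℤ)) R)

theorem WR_mono {R R' : ℕ} (h : R ≤ R') : WR F m R ≤ WR F m R' := by
  apply Submodule.span_mono
  apply Set.image_mono
  intro n hn
  rw [Set.mem_Icc] at hn ⊢
  omega

theorem vt_mul (a b : ℤ) : vt F m a * vt F m b = vt F m (a + b) := by
  simp [vt, single_mul_single]

theorem WR_mul {R R' : ℕ} {x y : LP F m} (hx : x ∈ WR F m R) (hy : y ∈ WR F m R') :
    x * y ∈ WR F m (R + R') := by
  unfold WR at hx
  induction hx using Submodule.span_induction with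
  | mem x hx =>
    obtain ⟨n, hn, rfl⟩ := hx
    unfold WR at hy
    induction hy using Submodule.span_induction with
    | mem y hy =>
      obtain ⟨k, hk, rfl⟩ := hy
      apply Submodule.subset_span
      refine ⟨n + k, ?_, (vt_mul n k).symm⟩
      rw [Set.mem_Icc] at hn hk ⊢
      push_cast
      omega
    | zero => rw [mul_zero]; exact zero_mem _
    | add y y' _ _ h h' => rw [mul_add]; exact add_mem h h'
    | smul r y _ h => rw [mul_smul_comm]; exact Submodule.smul_mem _ _ h
  | zero => rw [zero_mul]; exact zero_mem _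
  | add y y' _ _ h h' => rw [add_mul]; exact add_mem h h'
  | smul r y _ h => rw [smul_mul_assoc]; exact Submodule.smul_mem _ _ h

theorem WR_pow {R : ℕ} {x : LP F m} (hx : x ∈ WR F m R) (n : ℕ) : x ^ n ∈ WR F m (n * R) := by
  induction n with
  | zero =>
    rw [pow_zero]
    apply Submodule.subset_span
    exact ⟨0, by simp, rfl⟩
  | succ n ih =>
    rw [pow_succ, show (n + 1) * R = n * R + R by ring]
    exact WR_mul ih hx

theorem exists_WR (c : LP F m) (h : ∀ n α, c.coeff (n, α) ≠ 0 → α = 0) : ∃ R, c ∈ WR F m R := by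
  classical
  refine ⟨c.coeff.support.sup (fun g => g.1.natAbs), ?_⟩
  have e : c = c.coeff.sum single := (sum_coeff_single c).symm
  rw [Finsupp.sum] at e
  have : ∀ R : ℕ, (∀ g ∈ c.coeff.support, g.1.natAbs ≤ R) →
      (∑ g ∈ c.coeff.support, single g (c.coeff g) : LP F m) ∈ WR F m R := by
    intro R hR
    apply Submodule.sum_mem
    rintro ⟨n, α⟩ hg
    have h1 : α = 0 := h n α (Finsupp.mem_support_iff.1 hg)
    subst h1
    have h2 : (single (n, 0) (c.coeff (n, 0)) : LP F m) = (c.coeff (n, 0)) • vt F m n := by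
      rw [vt, smul_single', mul_one]
    rw [h2]
    apply Submodule.smul_mem
    apply Submodule.subset_span
    refine ⟨n, ?_, rfl⟩
    have := hR _ hg
    rw [Set.mem_Icc]
    change n.natAbs ≤ R at this
    omega
  have h3 := this _ (fun g hg => Finset.le_sup (f := fun g : ℤ × (Fin m →₀ ℕ) => g.1.natAbs) hg)
  rw [← e] at h3
  exact h3

/-- There is no twisted embedding of the Laurent polynomials in two variables into those in one. -/
theorem no_L (L : C2 F →ₗ[F] LP F m) (h1 : ∀ p, p ≠ 0 → L p ≠ 0)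
    (h2 : ∀ p q, L p * L q = L 1 * L (p * q))
    (h3 : ∀ p n α, (L p).coeff (n, α) ≠ 0 → α = 0) : False := by
  obtain ⟨Ra, hRa⟩ := exists_WR _ (h3 1)
  obtain ⟨Rb, hRb⟩ := exists_WR _ (h3 (sp 1))
  obtain ⟨Rc, hRc⟩ := exists_WR _ (h3 (tp 1))
  obtain ⟨R, hR, ha, hb, hc⟩ : ∃ R : ℕ, 1 ≤ R ∧ L 1 ∈ WR F m R ∧ L (sp 1) ∈ WR F m R ∧
      L (tp 1) ∈ WR F m R :=
    ⟨Ra + Rb + Rc + 1, by omega, WR_mono (by omega) hRa, WR_mono (by omega) hRb,
      WR_mono (by omega) hRc⟩
  have key : ∀ i j : ℕ, L 1 ^ (i + j) * L (sp 1 ^ i * tp 1 ^ j) = L 1 * (L (sp 1) ^ i * L (tp 1) ^ j) := by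
    intro i j
    induction i with
    | zero =>
      rw [zero_add, pow_zero, pow_zero, one_mul, one_mul]
      induction j with
      | zero => simp
      | succ j ih =>
        calc L 1 ^ (j + 1) * L (tp 1 ^ (j + 1)) = L 1 ^ j * (L 1 * L (tp 1 ^ j * tp 1)) := by ring_nf
          _ = L 1 ^ j * (L (tp 1 ^ j) * L (tp 1)) := by rw [← h2]
          _ = (L 1 ^ j * L (tp 1 ^ j)) * L (tp 1) := by ring
          _ = _ := by rw [ih]; ring
    | succ i ih =>
      calc L 1 ^ (i + 1 + j) * L (sp 1 ^ (i + 1) * tp 1 ^ j) =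
            L 1 ^ (i + j) * (L 1 * L (sp 1 * (sp 1 ^ i * tp 1 ^ j))) := by
              rw [show sp 1 ^ (i + 1) * tp 1 ^ j = (sp 1 * (sp 1 ^ i * tp 1 ^ j) : C2 F) by ring]
              ring
        _ = L 1 ^ (i + j) * (L (sp 1) * L (sp 1 ^ i * tp 1 ^ j)) := by rw [← h2]
        _ = L (sp 1) * (L 1 ^ (i + j) * L (sp 1 ^ i * tp 1 ^ j)) := by ring
        _ = _ := by rw [ih]; ring
  obtain ⟨N, hN⟩ : ∃ N : ℕ, N = 4 * R := ⟨_, rfl⟩
  have mem : ∀ i j : ℕ, i ≤ N → j ≤ N →
      L 1 ^ (2 * N) * L (sp 1 ^ i * tp 1 ^ j) ∈ WR F m ((2 * N + 1) * R) := by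
    intro i j hi hj
    have e : L 1 ^ (2 * N) * L (sp 1 ^ i * tp 1 ^ j) =
        L 1 ^ (2 * N - (i + j)) * (L 1 * (L (sp 1) ^ i * L (tp 1) ^ j)) := by
      rw [← key, ← mul_assoc, ← pow_add]
      congr 2
      omega
    rw [e, show (2 * N + 1) * R = (2 * N - (i + j)) * R + (R + (i * R + j * R)) by
      rw [← add_mul, show R + (i + j) * R = (1 + (i + j)) * R by ring, ← add_mul]
      congr 1
      omega]
    exact WR_mul (WR_pow ha _) (WR_mul ha (WR_mul (WR_pow hb _) (WR_pow hc _)))
  -- linear independence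
  have hli : LinearIndependent F (fun g : Fin (N + 1) × Fin (N + 1) =>
      L 1 ^ (2 * N) * L (sp 1 ^ (g.1 : ℕ) * tp 1 ^ (g.2 : ℕ))) := by
    have h4 : LinearIndependent F (fun g : ℤ × ℤ => (single g 1 : C2 F)) := by
      have h5 : LinearIndependent F (fun g : ℤ × ℤ => (Finsupp.single g (1 : F))) :=
        Finsupp.linearIndependent_single_one F (ℤ × ℤ)
      have h6 := h5.map' (coeffLinearEquiv F : C2 F ≃ₗ[F] _).symm.toLinearMap
        (LinearMap.ker_eq_bot.2 (coeffLinearEquiv F : C2 F ≃ₗ[F] _).symm.injective)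
      exact h6
    have h7 : Function.Injective (fun g : Fin (N + 1) × Fin (N + 1) => (((g.1 : ℕ) : ℤ), ((g.2 : ℕ) : ℤ))) := by
      intro x y hxy
      simp only [Prod.mk.injEq, Nat.cast_inj] at hxy
      exact Prod.ext (Fin.ext hxy.1) (Fin.ext hxy.2)
    have h8 := h4.comp _ h7
    have h9 : ∀ x, ((LinearMap.mulLeft F (L 1 ^ (2 * N))) ∘ₗ L) x = 0 → x = 0 := by
      intro x hx
      by_contra hne
      rw [LinearMap.comp_apply, LinearMap.mulLeft_apply] at hx
      rcases mul_eq_zero.1 hx with h | h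
      · exact pow_ne_zero _ (h1 1 one_ne_zero) h
      · exact h1 x hne h
    have h10 := h8.map' ((LinearMap.mulLeft F (L 1 ^ (2 * N))) ∘ₗ L)
      (LinearMap.ker_eq_bot'.2 h9)
    have h11 : (fun g : Fin (N + 1) × Fin (N + 1) =>
        L 1 ^ (2 * N) * L (sp 1 ^ (g.1 : ℕ) * tp 1 ^ (g.2 : ℕ))) =
        ⇑(LinearMap.mulLeft F (L 1 ^ (2 * N)) ∘ₗ L) ∘ (fun g : ℤ × ℤ => (single g 1 : C2 F)) ∘
          fun g : Fin (N + 1) × Fin (N + 1) => (((g.1 : ℕ) : ℤ), ((g.2 : ℕ) : ℤ)) := by
      funext g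
      simp only [Function.comp_apply, LinearMap.comp_apply, LinearMap.mulLeft_apply]
      congr 2
      rw [← sp_nat, ← tp_nat, sp, tp, single_mul_single]
      simp
    rw [h11]
    exact h10
  classical
  set K : ℕ := (2 * N + 1) * R with hK
  let w : Finset (LP F m) := (Finset.Icc (-(K : ℤ)) K).image (fun n => vt F m n)
  have hw : Set.range (fun g : Fin (N + 1) × Fin (N + 1) =>
      L 1 ^ (2 * N) * L (sp 1 ^ (g.1 : ℕ) * tp 1 ^ (g.2 : ℕ))) ⊆
        (Submodule.span F (w : Set (LP F m)) : Set (LP F m)) := by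
    rintro _ ⟨g, rfl⟩
    have h11 := mem g.1 g.2 (by omega) (by omega)
    rw [SetLike.mem_coe]
    unfold WR at h11
    convert h11 using 2
    simp only [w, Finset.coe_image, Finset.coe_Icc]
  have hcard := linearIndependent_le_span' _ hli (w : Set (LP F m)) hw
  rw [Cardinal.mk_fintype, Nat.cast_le] at hcard
  have hc2 : Fintype.card (w : Set (LP F m)) ≤ 2 * K + 1 := by
    have h12 : Fintype.card (w : Set (LP F m)) = w.card := by simp
    rw [h12]
    refine Finset.card_image_le.trans ?_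
    rw [Int.card_Icc]
    omega
  have hc3 : Fintype.card (Fin (N + 1) × Fin (N + 1)) = (N + 1) * (N + 1) := by simp
  have hfin : (N + 1) * (N + 1) ≤ 2 * K + 1 := by
    rw [← hc3]; exact hcard.trans hc2
  rw [hK, hN] at hfin
  nlinarith [hR]

theorem C2_units : Submodule.span F {u : C2 F | IsUnit u} = ⊤ := by
  rw [eq_top_iff]
  intro c _
  induction c using AddMonoidAlgebra.induction_linear with
  | zero => exact zero_mem _
  | add a a' ha ha' => exact add_mem (ha trivial) (ha' trivial)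
  | single g r =>
    have e : (single g r : C2 F) = r • single g 1 := by rw [smul_single', mul_one]
    rw [e]
    apply Submodule.smul_mem
    apply Submodule.subset_span
    refine IsUnit.of_mul_eq_one (single (-g) 1) ?_
    rw [single_mul_single]; simp; rfl

/-- MAIN: no twisted embedding into the Weyl algebra with one inverted variable. -/
theorem no_tw [CharZero F] (Y : C2 F →ₗ[F] LW F m) (hY : IsTw (C := C2 F) (A := LW F m) Y) :
    False := by
  have hleib : ∀ j, Leib (F := F) (A := LW F m) (adS F m j) := fun j => adE_leib _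
  obtain ⟨Y', hY', hk⟩ := IsTw.iterate (F := F) (A := LW F m) (C := C2 F) LW_noZD (adS F m) hleib
    adS_comm adS_ln C2_units hY
  have hm : ∀ p, (Y' p : Module.End F (LP F m)) =
      LinearMap.mulLeft F ((Y' p : Module.End F (LP F m)) 1) := fun p =>
    eq_mulLeft _ (ker_coe _ (fun j => hk j p))
  let L : C2 F →ₗ[F] LP F m :=
    { toFun := fun p => (Y' p : Module.End F (LP F m)) 1
      map_add' := fun p q => by rw [map_add]; rfl
      map_smul' := fun r p => by rw [map_smul]; rfl }
  refine no_L L ?_ ?_ ?_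
  · intro p hp h0
    apply hY'.1 p hp
    apply Subtype.ext
    rw [hm p]
    change LinearMap.mulLeft F (L p) = 0
    rw [h0, mulLeft_zero']
  · intro p q
    have h1 := congrArg (fun f : LW F m => (f : Module.End F (LP F m)) 1) (hY'.2 p q)
    change (Y' p : Module.End F (LP F m)) ((Y' q : Module.End F (LP F m)) 1) =
      (Y' 1 : Module.End F (LP F m)) ((Y' (p * q) : Module.End F (LP F m)) 1) at h1
    rw [hm p, hm 1] at h1
    exact h1
  · intro p n α hne
    exact supp_of_ps _ (fun i => ps_of_comm _ (ker_coe _ (fun j => hk j p)) i) n α hne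

end Pool.Agent.T2h10.WV
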