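import Pool.Agent.T2h10.WV.Simple
import Pool.Agent.T2h10.WV.NoEmb
import Pool.Agent.R693.R.PBW
import Pool.Agent.R693.W.Gen

/-!
The kernel of the action on the module of delta functions: it is primitive, nonzero, and is not the
kernel of a map to a Weyl algebra with one inverted variable.
-/

set_option autoImplicit false
set_option linter.unusedSimpArgs false

namespace Pool.Agent.T2h10.WV

open Pool.Agent.R693 Pool.Agent.R693.W

section Core

variable {F : Type} [Field F] [CharZero F] {U : Type} [Ring U] [Algebra F U]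
  (la : F) (hl0 : la ≠ 0) (hl1 : la ≠ 1) (hl2 : la - (1 - la) ≠ 0)
  (Th : U →ₐ[F] Module.End F (DM F)) (hX : ∀ a : ℤ, ∃ u, Th u = X (DD F) la a)

include hl0 hl1 hl2 hX in
theorem core_simple : ∃ (M : Type) (_ : AddCommGroup M) (_ : Module U M), IsSimpleModule U M ∧
    ∀ a : U, Th a = 0 ↔ ∀ x : M, a • x = 0 := by
  let inst : Module U (DM F) := Module.compHom (DM F) Th.toRingHom
  have hs : ∀ (a : U) (x : DM F), a • x = Th a x := fun a x => rfl
  refine ⟨DM F, inferInstance, inst, ?_, ?_⟩
  · rw [isSimpleModule_iff]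
    refine { exists_pair_ne := ⟨⊥, ⊤, ?_⟩, eq_bot_or_eq_top := ?_ }
    · intro h
      have h1 : (1 : DM F) ∈ (⊥ : Submodule U (DM F)) := by rw [h]; trivial
      rw [Submodule.mem_bot] at h1
      exact one_ne_zero h1
    · intro N
      by_cases h0 : N = ⊥
      · exact Or.inl h0
      right
      let N' : Submodule F (DM F) :=
        { carrier := N
          add_mem' := fun h h' => N.add_mem h h'
          zero_mem' := N.zero_mem
          smul_mem' := by
            intro r v hv
            have h1 := N.smul_mem (algebraMap F U r) hv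
            rw [hs, AlgHom.commutes] at h1
            exact h1 }
      have h1 : N' = ⊤ := by
        apply top_of_stable la hl0 hl1 hl2
        · intro a v hv
          obtain ⟨u, hu⟩ := hX a
          rw [← hu, ← hs]
          exact N.smul_mem u hv
        · intro h
          apply h0
          rw [eq_bot_iff]
          intro v hv
          have h2 : v ∈ N' := hv
          rw [h, Submodule.mem_bot] at h2
          rw [h2]; exact Submodule.zero_mem _
      rw [eq_top_iff]
      intro v _
      have h2 : v ∈ N' := by rw [h1]; trivial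
      exact h2
  · intro a
    constructor
    · intro h x; rw [hs, h]; rfl
    · intro h
      apply LinearMap.ext
      intro x
      rw [← hs, h]; rfl

include hl0 hl1 hl2 hX in
theorem core_no (m : ℕ) (φ : U →ₐ[F] LW F m) (hφ : ∀ a, Th a = 0 ↔ φ a = 0) : False := by
  have hker : ∀ a b, Th a = Th b → φ a = φ b := by
    intro a b h
    rw [← sub_eq_zero, ← map_sub, hφ, map_sub, sub_eq_zero] at h
    exact h
  have hB : ∀ b ∈ BB (DD F) la, ∃ u, Th u = b := by
    intro b hb
    unfold BB at hb
    have : Algebra.adjoin F (Set.range (X (DD F) la)) ≤ Th.range := by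
      rw [Algebra.adjoin_le_iff]
      rintro _ ⟨a, rfl⟩
      exact hX a
    exact this hb
  have hu : ∀ p : C2 F, ∃ u, Th u = ml (dl ^ 22 * p) := fun p =>
    hB _ (ml_mem (DD F) la rfl rfl hl0 hl1 hl2 p)
  choose u hu using hu
  let Y : C2 F →ₗ[F] LW F m :=
    { toFun := fun p => φ (u p)
      map_add' := fun p q => by
        rw [← map_add]
        apply hker
        rw [map_add, hu, hu, hu, mul_add, ml_add]
      map_smul' := fun r p => by
        rw [RingHom.id_apply, ← map_smul]
        apply hker
        rw [map_smul, hu, hu, mul_smul_comm, ml_smul] }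
  have hYp : ∀ p, Y p = φ (u p) := fun p => rfl
  refine no_tw (m := m) Y ⟨?_, ?_⟩
  · intro p hp h
    rw [hYp, ← hφ, hu] at h
    have h1 : (dl ^ 22 * p : C2 F) = 0 := by
      apply faithful (DD F) rfl rfl
      intro v
      rw [← ml_apply, h, LinearMap.zero_apply]
    rcases mul_eq_zero.1 h1 with h2 | h2
    · exact pow_ne_zero _ dl_ne h2
    · exact hp h2
  · intro p q
    change φ (u p) * φ (u q) = φ (u 1) * φ (u (p * q))
    rw [← map_mul, ← map_mul]
    apply hker
    rw [map_mul, map_mul, hu, hu, hu, hu, ← ml_mul, ← ml_mul]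
    have e : (dl ^ 22 * p * (dl ^ 22 * q) : C2 F) = dl ^ 22 * 1 * (dl ^ 22 * (p * q)) := by
      generalize (dl ^ 22 : C2 F) = z
      ring
    rw [e]

end Core

section Brk

variable {F : Type*} [Field F] {M : Type*} [AddCommGroup M] [Module F M]
  [Module (C2 F) M] [IsScalarTower F (C2 F) M]

theorem X_comm (D : Conn F (C2 F) M) (la : F) (h1 : D.ds = dS F) (h2 : D.dt = dT F) (a b : ℤ) :
    X D la a * X D la b - X D la b * X D la a = ((b - a : ℤ) : F) • X D la (a + b - 1) := by
  have h := X_brk D la h1 h2 a (tp b) (sp b)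
  change _ = X D la a * X D la b - X D la b * X D la a at h
  rw [← h, X, ← V_smul]
  congr 1
  · have t1 : (tp (a + b - 1) : C2 F) = tp a * tp (b - 1) := by rw [← tp_add]; congr 1; ring
    have t2 : (tp (a + b - 1) : C2 F) = tp (a - 1) * tp b := by rw [← tp_add]; congr 1; ring
    rw [Lv_apply, dS_tp, dT_tp, mul_zero, zero_add, ← t2, mul_smul_comm, ← t1, ← sub_smul]
    congr 1; push_cast; ring
  · have t1 : (sp (a + b - 1) : C2 F) = sp a * sp (b - 1) := by rw [← sp_add]; congr 1; ring
    have t2 : (sp (a + b - 1) : C2 F) = sp (a - 1) * sp b := by rw [← sp_add]; congr 1; ring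
    rw [Lv_apply, dS_sp, dT_sp, mul_zero, add_zero, ← t2, mul_smul_comm, ← t1, ← sub_smul]
    congr 1; push_cast; ring

end Brk

section Weyl

variable {F : Type} [Field F] [CharZero F] (la : F)

theorem dd_mem (i : Fin 2) : dd F i ∈ G.Weyl F 2 := Algebra.subset_adjoin (Or.inr ⟨i, rfl⟩)

theorem xx_mem (i : Fin 2) : xx F i ∈ G.Weyl F 2 := Algebra.subset_adjoin (Or.inl ⟨i, rfl⟩)

theorem ml_sp_mem (n : ℕ) : (ml (sp n : C2 F) : Module.End F (DM F)) ∈ G.Weyl F 2 := by
  have h : (ml (sp 1 : C2 F) : Module.End F (DM F)) = 1 - dd F 0 := by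
    apply LinearMap.ext; intro v
    rw [ml_apply, sp_smul]; rfl
  induction n with
  | zero =>
    have : (ml (sp ((0 : ℕ) : ℤ) : C2 F) : Module.End F (DM F)) = 1 := by
      apply LinearMap.ext; intro v
      rw [ml_apply, Nat.cast_zero, sp_zero, one_smul]; rfl
    rw [this]; exact one_mem _
  | succ n ih =>
    rw [Nat.cast_succ, sp_add, ml_mul, h]
    exact mul_mem ih (sub_mem (one_mem _) (dd_mem 0))

theorem ml_tp_mem (n : ℕ) : (ml (tp n : C2 F) : Module.End F (DM F)) ∈ G.Weyl F 2 := by
  have h : (ml (tp 1 : C2 F) : Module.End F (DM F)) = 2 - dd F 1 := by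
    apply LinearMap.ext; intro v
    have h2 : (2 : Module.End F (DM F)) = 1 + 1 := one_add_one_eq_two.symm
    rw [ml_apply, tp_smul, h2, two_smul]; rfl
  induction n with
  | zero =>
    have : (ml (tp ((0 : ℕ) : ℤ) : C2 F) : Module.End F (DM F)) = 1 := by
      apply LinearMap.ext; intro v
      rw [ml_apply, Nat.cast_zero, tp_zero, one_smul]; rfl
    rw [this]; exact one_mem _
  | succ n ih =>
    rw [Nat.cast_succ, tp_add, ml_mul, h]
    have h2 : (2 : Module.End F (DM F)) = 1 + 1 := one_add_one_eq_two.symm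
    rw [h2]
    exact mul_mem ih (sub_mem (add_mem (one_mem _) (one_mem _)) (dd_mem 1))

theorem X_weyl (n : ℕ) : X (DD F) la n ∈ G.Weyl F 2 := by
  have e : X (DD F) la n = ml (tp n) * xx F 1 + ((1 - la) * n) • ml (tp ((n : ℤ) - 1)) +
      ml (sp n) * xx F 0 + (la * n) • ml (sp ((n : ℤ) - 1)) := by
    apply LinearMap.ext; intro v
    rw [X, V_apply]
    change (tp n : C2 F) • xx F 1 v + ((1 - la) • dT F (tp n)) • v + (sp n : C2 F) • xx F 0 v +
      (la • dS F (sp n)) • v = _
    rw [dT_tp, dS_sp, smul_smul, smul_smul]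
    simp only [LinearMap.add_apply, LinearMap.smul_apply, Module.End.mul_apply, ml_apply, Int.cast_natCast,
      smul_assoc]
  rw [e]
  rcases n with _ | n
  · simp only [Nat.cast_zero, mul_zero, zero_smul, add_zero]
    exact add_mem (mul_mem (ml_tp_mem 0) (xx_mem 1)) (mul_mem (ml_sp_mem 0) (xx_mem 0))
  · have e1 : (((n + 1 : ℕ) : ℤ) - 1) = (n : ℤ) := by push_cast; ring
    rw [e1]
    exact add_mem (add_mem (add_mem (mul_mem (ml_tp_mem _) (xx_mem 1))
      (Subalgebra.smul_mem _ (ml_tp_mem _) _)) (mul_mem (ml_sp_mem _) (xx_mem 0)))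
      (Subalgebra.smul_mem _ (ml_sp_mem _) _)

end Weyl

section Lie

attribute [local instance 100] LieRing.ofAssociativeRing

variable {F : Type} [Field F] [CharZero F] {L : Type} [LieRing L] [LieAlgebra F L]

lemma iota_comm (x y : L) : UniversalEnvelopingAlgebra.ι F x * UniversalEnvelopingAlgebra.ι F y -
    UniversalEnvelopingAlgebra.ι F y * UniversalEnvelopingAlgebra.ι F x =
      UniversalEnvelopingAlgebra.ι F ⁅x, y⁆ := by
  rw [LieHom.map_lie, LieRing.of_associative_ring_bracket]

/-- A linear map which preserves the brackets of basis elements gives an algebra map. -/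
theorem exists_Th {I : Type} (b : Module.Basis I F L) {E : Type} [Ring E] [Algebra F E]
    (f : L →ₗ[F] E) (hf : ∀ i j, f ⁅b i, b j⁆ = f (b i) * f (b j) - f (b j) * f (b i)) :
    ∃ Th : UniversalEnvelopingAlgebra F L →ₐ[F] E, ∀ x, Th (UniversalEnvelopingAlgebra.ι F x) = f x := by
  have h : ∀ x y, f ⁅x, y⁆ = f x * f y - f y * f x := by
    intro x y
    have hx : x ∈ Submodule.span F (Set.range b) := by rw [b.span_eq]; trivial
    have hy : y ∈ Submodule.span F (Set.range b) := by rw [b.span_eq]; trivial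
    induction hx using Submodule.span_induction with
    | mem x hx =>
      obtain ⟨i, rfl⟩ := hx
      induction hy using Submodule.span_induction with
      | mem y hy => obtain ⟨j, rfl⟩ := hy; exact hf i j
      | zero => simp
      | add y y' _ _ h h' => rw [lie_add, map_add, map_add, h, h', mul_add, add_mul]; abel
      | smul r y _ h => rw [lie_smul, map_smul, map_smul, h, mul_smul_comm, smul_mul_assoc, smul_sub]
    | zero => simp
    | add y y' _ _ h h' => rw [add_lie, map_add, map_add, h, h', mul_add, add_mul]; abel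
    | smul r y _ h => rw [smul_lie, map_smul, map_smul, h, mul_smul_comm, smul_mul_assoc, smul_sub]
  have hl : ∀ {x y : L}, f.toFun ⁅x, y⁆ = ⁅f.toFun x, f.toFun y⁆ := by
    intro x y
    change f ⁅x, y⁆ = ⁅f x, f y⁆
    rw [h, LieRing.of_associative_ring_bracket]
  let f' : L →ₗ⁅F⁆ E := { f with map_lie' := hl }
  exact ⟨UniversalEnvelopingAlgebra.lift F f', fun x => UniversalEnvelopingAlgebra.lift_ι_apply F f' x⟩

/-- The subalgebra spanned by the `b (o m)`. -/
theorem exists_u {I : Type} [LinearOrder I] (b : Module.Basis I F L) (o : ℕ → I) (ho : StrictMono o)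
    (hb : ∀ m n j : ℕ, m + n = j + 1 → ⁅b (o m), b (o n)⁆ = (((n : ℤ) - (m : ℤ) : ℤ) : F) • b (o j))
    (Th : UniversalEnvelopingAlgebra F L →ₐ[F] Module.End F (MvPolynomial (Fin 2) F))
    (hTh : ∀ m, Th (UniversalEnvelopingAlgebra.ι F (b (o m))) ∈ G.Weyl F 2)
    (β : Module.Basis {l : List I // l.Pairwise (· ≤ ·)} F (UniversalEnvelopingAlgebra F L))
    (hβ : ∀ l, β l = (l.1.map (fun i => UniversalEnvelopingAlgebra.ι F (b i))).prod) :
    ∃ u, Th u = 0 ∧ u ≠ 0 ∧ u ∈ Submodule.span F (β '' {l | ∀ i ∈ l.1, i ∈ Set.range o}) := by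
  classical
  let S : Submodule F L := Submodule.span F (Set.range (fun m => b (o m)))
  have hS : ∀ x ∈ S, ∀ y ∈ S, ⁅x, y⁆ ∈ S := by
    intro x hx y hy
    induction hx using Submodule.span_induction with
    | mem x hx =>
      obtain ⟨m, rfl⟩ := hx
      induction hy using Submodule.span_induction with
      | mem y hy =>
        obtain ⟨n, rfl⟩ := hy
        rcases Nat.eq_zero_or_pos (m + n) with h | h
        · have h1 : m = 0 := by omega
          have h2 : n = 0 := by omega
          subst h1; subst h2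
          beta_reduce
          rw [lie_self]; exact zero_mem _
        · beta_reduce
          rw [hb m n (m + n - 1) (by omega)]
          exact S.smul_mem _ (Submodule.subset_span ⟨_, rfl⟩)
      | zero => rw [lie_zero]; exact zero_mem _
      | add y y' _ _ h h' => rw [lie_add]; exact add_mem h h'
      | smul r y _ h => rw [lie_smul]; exact S.smul_mem _ h
    | zero => rw [zero_lie]; exact zero_mem _
    | add y y' _ _ h h' => rw [add_lie]; exact add_mem h h'
    | smul r y _ h => rw [smul_lie]; exact S.smul_mem _ h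
  let Lp : LieSubalgebra F L := { S with lie_mem' := fun hx hy => hS _ hx _ hy }
  have hmem : ∀ m, b (o m) ∈ Lp := fun m => Submodule.subset_span ⟨m, rfl⟩
  let v : ℕ → Lp := fun m => ⟨b (o m), hmem m⟩
  have hli : LinearIndependent F v := by
    have h1 : LinearIndependent F (fun m => b (o m)) := b.linearIndependent.comp _ ho.injective
    exact LinearIndependent.of_comp (Lp.incl : Lp →ₗ[F] L) h1
  have hsp : ⊤ ≤ Submodule.span F (Set.range v) := by
    have gen : ∀ x, x ∈ Submodule.span F (Set.range (fun m => b (o m))) → ∀ hx : x ∈ Lp,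
        (⟨x, hx⟩ : Lp) ∈ Submodule.span F (Set.range v) := by
      intro x hx'
      induction hx' using Submodule.span_induction with
      | mem x h0 =>
        intro hx
        obtain ⟨m, rfl⟩ := h0
        exact Submodule.subset_span ⟨m, rfl⟩
      | zero => intro hx; exact zero_mem _
      | add y y' h1 h2 h h' => intro hx; exact add_mem (h h1) (h' h2)
      | smul r y h1 h => intro hx; exact Submodule.smul_mem _ r (h h1)
    rintro ⟨x, hx⟩ _
    exact gen x hx hx
  let b' : Module.Basis ℕ F Lp := Module.Basis.mk hli hsp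
  have hb' : ∀ m, b' m = v m := fun m => Module.Basis.mk_apply hli hsp m
  have hb'c : ∀ m, ((b' m : Lp) : L) = b (o m) := fun m => by rw [hb']
  obtain ⟨β', hβ'⟩ := PBW.exists_basis F Lp ℕ b'
  let f : Lp →ₗ[F] UniversalEnvelopingAlgebra F L :=
    (UniversalEnvelopingAlgebra.ι F : L →ₗ⁅F⁆ UniversalEnvelopingAlgebra F L).toLinearMap ∘ₗ
      (Lp.incl : Lp →ₗ[F] L)
  have hfx : ∀ x, f x = UniversalEnvelopingAlgebra.ι F (x : L) := fun x => rfl
  obtain ⟨j, hj⟩ := exists_Th b' f (by
    intro m n
    rw [hfx, hfx, hfx, iota_comm]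
    rfl)
  have hW : IsW F (fun m : ℕ => UniversalEnvelopingAlgebra.ι F (b' m)) := by
    intro m n k hmn
    have h2 : (Lab.one : ℕ) = 1 := rfl
    have h3 : ∀ k : ℕ, (Lab.c k : ℤ) = k := fun k => rfl
    rw [h2] at hmn
    beta_reduce
    rw [iota_comm, h3, h3, ← map_smul]
    congr 1
    apply Subtype.ext
    change ⁅((b' m : Lp) : L), ((b' n : Lp) : L)⁆ = (((n : ℤ) - (m : ℤ) : ℤ) : F) • ((b' k : Lp) : L)
    rw [hb'c, hb'c, hb'c, hb m n k hmn]
  have hLI : LinearIndependent F (fun l : {l : List ℕ // l.Pairwise (· ≤ ·)} =>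
      wd (fun m : ℕ => UniversalEnvelopingAlgebra.ι F (b' m)) l.1) := by
    have h4 : (fun l : {l : List ℕ // l.Pairwise (· ≤ ·)} =>
        wd (fun m : ℕ => UniversalEnvelopingAlgebra.ι F (b' m)) l.1) = β' := by
      funext l
      rw [hβ']
      rfl
    rw [h4]
    exact β'.linearIndependent
  have hmemW : ∀ a, (Th.comp j) a ∈ G.Weyl F 2 := by
    have h5 : (⊤ : Subalgebra F (UniversalEnvelopingAlgebra F Lp)) ≤
        (G.Weyl F 2).comap (Th.comp j) := by
      rw [← uea_adjoin_basis F b', Algebra.adjoin_le_iff]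
      rintro _ ⟨m, rfl⟩
      rw [SetLike.mem_coe, Subalgebra.mem_comap]
      change Th (j (UniversalEnvelopingAlgebra.ι F (b' m))) ∈ G.Weyl F 2
      rw [hj, hfx, hb'c]
      exact hTh m
    intro a
    exact h5 (Algebra.mem_top : a ∈ ⊤)
  obtain ⟨u', hu', hu0⟩ := G.no_embed hW hLI 2 (Th.comp j) hmemW
  -- the image of the basis
  let oo : {l : List ℕ // l.Pairwise (· ≤ ·)} → {l : List I // l.Pairwise (· ≤ ·)} :=
    fun l => ⟨l.1.map o, by
      rw [List.pairwise_map]
      exact l.2.imp (fun h => ho.monotone h)⟩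
  have hoo : Function.Injective oo := by
    intro l l' h
    have h1 := congrArg Subtype.val h
    exact Subtype.ext (List.map_injective_iff.2 ho.injective h1)
  have hjβ : ∀ l, j (β' l) = β (oo l) := by
    intro l
    rw [hβ', hβ, map_list_prod, List.map_map, List.map_map]
    congr 1
    apply List.map_congr_left
    intro m _
    change j (UniversalEnvelopingAlgebra.ι F (b' m)) = _
    rw [hj, hfx, hb'c]
    rfl
  refine ⟨j u', ?_, ?_, ?_⟩
  · exact hu0
  · intro h
    apply hu'
    have h6 : LinearIndependent F (fun l => j (β' l)) := by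
      have h7 : (fun l => j (β' l)) = β ∘ oo := by funext l; exact hjβ l
      rw [h7]
      exact β.linearIndependent.comp _ hoo
    have h8 : j u' = Finsupp.linearCombination F (fun l => j (β' l)) (β'.repr u') := by
      conv_lhs => rw [← β'.linearCombination_repr u']
      rw [Finsupp.linearCombination_apply, Finsupp.linearCombination_apply, map_finsuppSum]
      simp only [map_smul]
    rw [h8] at h
    have h9 := linearIndependent_iff.1 h6 _ h
    have h10 : β'.repr u' = 0 := h9
    simpa using h10
  · have h6 : u' ∈ Submodule.span F (Set.range β') := by rw [β'.span_eq]; trivial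
    have h7 : j u' ∈ (Submodule.span F (Set.range β')).map j.toLinearMap := ⟨u', h6, rfl⟩
    rw [Submodule.map_span] at h7
    refine Submodule.span_mono ?_ h7
    rintro _ ⟨_, ⟨l, rfl⟩, rfl⟩
    refine ⟨oo l, ?_, (hjβ l).symm⟩
    intro i hi
    obtain ⟨m, _, rfl⟩ := List.mem_map.1 hi
    exact ⟨m, rfl⟩

end Lie

end Pool.Agent.T2h10.WV
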