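import Mathlib

/-!
Locally nilpotent derivations of noncommutative algebras, and maps `Y` with
`Y p * Y q = Y 1 * Y (p * q)`.
-/

set_option autoImplicit false

namespace Pool.Agent.T2h10.WV

variable {F A : Type*} [Field F] [Ring A] [Algebra F A]

/-- The Leibniz rule. -/
def Leib (d : Module.End F A) : Prop := ∀ a b, d (a * b) = d a * b + a * d b

theorem pow_zero_of_le {d : Module.End F A} {a : A} {m n : ℕ} (h : (d ^ m) a = 0) (hmn : m ≤ n) :
    (d ^ n) a = 0 := by
  obtain ⟨k, rfl⟩ := Nat.exists_eq_add_of_le hmn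
  rw [add_comm, pow_add, Module.End.mul_apply, h, map_zero]

theorem pow_mul_zero {d : Module.End F A} (hL : Leib d) (N : ℕ) :
    ∀ (m n : ℕ) (a b : A), m + n ≤ N + 1 → (d ^ m) a = 0 → (d ^ n) b = 0 → (d ^ N) (a * b) = 0 := by
  induction N with
  | zero =>
    intro m n a b h ha hb
    rcases Nat.eq_zero_or_pos m with rfl | hm
    · have : a = 0 := by simpa using ha
      rw [this, zero_mul, map_zero]
    · have : n = 0 := by omega
      subst this
      have : b = 0 := by simpa using hb
      rw [this, mul_zero, map_zero]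
  | succ N ih =>
    intro m n a b h ha hb
    rcases m with _ | m
    · have : a = 0 := by simpa using ha
      rw [this, zero_mul, map_zero]
    rcases n with _ | n
    · have : b = 0 := by simpa using hb
      rw [this, mul_zero, map_zero]
    rw [pow_succ, Module.End.mul_apply, hL, map_add, ih m (n + 1) (d a) b (by omega) (by
      rw [← Module.End.mul_apply, ← pow_succ]; exact ha) hb, ih (m + 1) n a (d b) (by omega) ha (by
      rw [← Module.End.mul_apply, ← pow_succ]; exact hb), add_zero]

theorem pow_mul_eq {d : Module.End F A} (hL : Leib d) (N : ℕ) :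
    ∀ (m n : ℕ) (a b : A), m + n = N → (d ^ (m + 1)) a = 0 → (d ^ (n + 1)) b = 0 →
      (d ^ N) (a * b) = (N.choose m : F) • ((d ^ m) a * (d ^ n) b) := by
  induction N with
  | zero =>
    intro m n a b h ha hb
    obtain ⟨rfl, rfl⟩ : m = 0 ∧ n = 0 := by omega
    simp
  | succ N ih =>
    intro m n a b h ha hb
    rw [pow_succ, Module.End.mul_apply, hL, map_add]
    have sa : ∀ k, (d ^ k) (d a) = (d ^ (k + 1)) a := fun k => by
      rw [← Module.End.mul_apply, ← pow_succ]
    have sb : ∀ k, (d ^ k) (d b) = (d ^ (k + 1)) b := fun k => by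
      rw [← Module.End.mul_apply, ← pow_succ]
    rcases m with _ | m
    · have h1 : d a = 0 := by simpa using ha
      rcases n with _ | n
      · omega
      rw [h1, zero_mul, map_zero, zero_add, ih 0 n a (d b) (by omega) ha (by rw [sb]; exact hb), sb]
      simp
    · rcases n with _ | n
      · have h1 : d b = 0 := by simpa using hb
        rw [h1, mul_zero, map_zero, add_zero, ih m 0 (d a) b (by omega) (by rw [sa]; exact ha) hb, sa]
        have e1 : N = m := by omega
        subst e1
        simp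
      · rw [ih m (n + 1) (d a) b (by omega) (by rw [sa]; exact ha) hb,
          ih (m + 1) n a (d b) (by omega) ha (by rw [sb]; exact hb), sa, sb, ← add_smul,
          Nat.choose_succ_succ]
        push_cast
        rfl

/-- `a` has degree `n`. -/
def IsDeg (d : Module.End F A) (a : A) (n : ℕ) : Prop := (d ^ n) a ≠ 0 ∧ (d ^ (n + 1)) a = 0

theorem IsDeg.unique {d : Module.End F A} {a : A} {m n : ℕ} (h : IsDeg d a m) (h' : IsDeg d a n) :
    m = n := by
  by_contra hne
  rcases Nat.lt_or_gt_of_ne hne with hlt | hlt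
  · exact h'.1 (pow_zero_of_le h.2 hlt)
  · exact h.1 (pow_zero_of_le h'.2 hlt)

theorem exists_isDeg {d : Module.End F A} {a : A} (h : ∃ n, (d ^ n) a = 0) (ha : a ≠ 0) :
    ∃ n, IsDeg d a n := by
  classical
  have h1 := Nat.find_spec h
  have h2 : Nat.find h ≠ 0 := by
    intro h0
    rw [h0] at h1
    exact ha (by simpa using h1)
  obtain ⟨n, hn⟩ := Nat.exists_eq_succ_of_ne_zero h2
  refine ⟨n, ?_, ?_⟩
  · exact Nat.find_min h (by omega)
  · rw [hn] at h1; exact h1

theorem IsDeg.mul [CharZero F] {d : Module.End F A} (hL : Leib d)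
    (hA : ∀ a b : A, a * b = 0 → a = 0 ∨ b = 0) {a b : A} {m n : ℕ} (ha : IsDeg d a m)
    (hb : IsDeg d b n) : IsDeg d (a * b) (m + n) := by
  refine ⟨?_, pow_mul_zero hL _ (m + 1) (n + 1) a b (by omega) ha.2 hb.2⟩
  rw [pow_mul_eq hL (m + n) m n a b rfl ha.2 hb.2]
  intro h
  rcases smul_eq_zero.1 h with h | h
  · exact (Nat.choose_pos (Nat.le_add_right m n)).ne' (by exact_mod_cast h)
  · rcases hA _ _ h with h | h
    · exact ha.1 h
    · exact hb.1 h

/-- If the common kernel of commuting locally nilpotent derivations has no zero divisors, then there are no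
zero divisors. -/
theorem noZD [CharZero F] {ι : Type*} [Fintype ι] (d : ι → Module.End F A) (hL : ∀ i, Leib (d i))
    (hc : ∀ i j, Commute (d i) (d j)) (hN : ∀ i a, ∃ n : ℕ, (d i ^ n) a = 0)
    (h0 : ∀ a b, (∀ i, d i a = 0) → (∀ i, d i b = 0) → a * b = 0 → a = 0 ∨ b = 0) (a b : A)
    (hab : a * b = 0) : a = 0 ∨ b = 0 := by
  classical
  have key : ∀ S : Finset ι, ∀ a b : A, (∀ i, i ∉ S → d i a = 0) → (∀ i, i ∉ S → d i b = 0) →
      a * b = 0 → a = 0 ∨ b = 0 := by
    intro S
    induction S using Finset.induction_on with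
    | empty => intro a b ha hb; exact h0 a b (fun i => ha i (by simp)) (fun i => hb i (by simp))
    | insert i S hi ih =>
      intro a b ha hb hab
      by_contra hcon
      push Not at hcon
      obtain ⟨m, hm⟩ := exists_isDeg (hN i a) hcon.1
      obtain ⟨n, hn⟩ := exists_isDeg (hN i b) hcon.2
      have h1 := pow_mul_eq (hL i) (m + n) m n a b rfl hm.2 hn.2
      rw [hab, map_zero] at h1
      have h2 : (d i ^ m) a * (d i ^ n) b = 0 := by
        rcases smul_eq_zero.1 h1.symm with h | h
        · exact absurd (by exact_mod_cast h) (Nat.choose_pos (Nat.le_add_right m n)).ne'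
        · exact h
      have kill : ∀ (c : A) (r : ℕ), (∀ j, j ∉ insert i S → d j c = 0) → (d i ^ (r + 1)) c = 0 →
          ∀ j, j ∉ S → d j ((d i ^ r) c) = 0 := by
        intro c r hc1 hc2 j hj
        by_cases hji : j = i
        · subst hji
          rw [← Module.End.mul_apply, ← pow_succ']; exact hc2
        · have h3 : Commute (d j) (d i ^ r) := (hc j i).pow_right r
          have h4 := congrArg (fun f : Module.End F A => f c) h3.eq
          simp only [Module.End.mul_apply] at h4
          rw [h4, hc1 j (by simp [hji, hj]), map_zero]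
      rcases ih _ _ (kill a m ha hm.2) (kill b n hb hn.2) h2 with h | h
      · exact hm.1 h
      · exact hn.1 h
  exact key Finset.univ a b (by simp) (by simp) hab

variable {C : Type*} [CommRing C] [Algebra F C]

/-- The property of `Y`. -/
def IsTw (Y : C →ₗ[F] A) : Prop := (∀ p, p ≠ 0 → Y p ≠ 0) ∧ ∀ p q, Y p * Y q = Y 1 * Y (p * q)

theorem IsTw.step [CharZero F] [IsDomain C] (hA : ∀ a b : A, a * b = 0 → a = 0 ∨ b = 0)
    {d : Module.End F A} (hL : Leib d) (hN : ∀ a, ∃ n : ℕ, (d ^ n) a = 0)
    (hC : Submodule.span F {u : C | IsUnit u} = ⊤) {Y : C →ₗ[F] A} (hY : IsTw Y) :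
    ∃ D : ℕ, IsTw ((d ^ D) ∘ₗ Y) ∧ ∀ p, (d ^ (D + 1)) (Y p) = 0 := by
  obtain ⟨D, hD⟩ := exists_isDeg (hN (Y 1)) (hY.1 1 one_ne_zero)
  have low : ∀ p : C, p ≠ 0 → ∀ e, IsDeg d (Y p) e → D ≤ e := by
    intro p hp e he
    by_contra hlt
    push Not at hlt
    have hg : ∀ n : ℕ, ∃ g, IsDeg d (Y (p ^ n)) g := fun n =>
      exists_isDeg (hN _) (hY.1 _ (pow_ne_zero _ hp))
    choose g hg using hg
    have hrec : ∀ n, g (n + 1) + D = g n + e := by
      intro n
      have h1 := (hg n).mul hL hA he
      rw [hY.2, ← pow_succ] at h1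
      have h2 := hD.mul hL hA (hg (n + 1))
      have := h1.unique h2
      omega
    have hdec : ∀ n, g n + n ≤ g 0 := by
      intro n
      induction n with
      | zero => simp
      | succ n ih => have := hrec n; omega
    have := hdec (g 0 + 1)
    omega
  have unit : ∀ u : C, IsUnit u → (d ^ (D + 1)) (Y u) = 0 := by
    intro u hu
    obtain ⟨v, hv⟩ := hu.exists_right_inv
    have hu0 : u ≠ 0 := hu.ne_zero
    have hv0 : v ≠ 0 := by
      rintro rfl
      rw [mul_zero] at hv
      exact zero_ne_one hv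
    obtain ⟨e, he⟩ := exists_isDeg (hN (Y u)) (hY.1 u hu0)
    obtain ⟨e', he'⟩ := exists_isDeg (hN (Y v)) (hY.1 v hv0)
    have h1 := he.mul hL hA he'
    rw [hY.2, hv] at h1
    have h2 := h1.unique (hD.mul hL hA hD)
    have h3 := low u hu0 e he
    have h4 := low v hv0 e' he'
    have h5 : e = D := by omega
    rw [← h5]
    exact he.2
  have all : ∀ p : C, (d ^ (D + 1)) (Y p) = 0 := by
    intro p
    have hp : p ∈ Submodule.span F {u : C | IsUnit u} := by rw [hC]; trivial
    induction hp using Submodule.span_induction with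
    | mem u hu => exact unit u hu
    | zero => rw [map_zero, map_zero]
    | add x y _ _ hx hy => rw [map_add, map_add, hx, hy, add_zero]
    | smul r x _ hx => rw [map_smul, map_smul, hx, smul_zero]
  refine ⟨D, ⟨?_, ?_⟩, all⟩
  · intro p hp h
    obtain ⟨e, he⟩ := exists_isDeg (hN (Y p)) (hY.1 p hp)
    have h1 := low p hp e he
    exact he.1 (pow_zero_of_le h h1)
  · intro p q
    have h1 := pow_mul_eq hL (D + D) D D (Y p) (Y q) rfl (all p) (all q)
    have h2 := pow_mul_eq hL (D + D) D D (Y 1) (Y (p * q)) rfl (all 1) (all _)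
    rw [hY.2, h2] at h1
    have h3 : ((D + D).choose D : F) ≠ 0 := by
      exact_mod_cast (Nat.choose_pos (Nat.le_add_right D D)).ne'
    exact (smul_right_injective A h3 h1).symm

theorem IsTw.iterate [CharZero F] [IsDomain C] (hA : ∀ a b : A, a * b = 0 → a = 0 ∨ b = 0)
    {ι : Type*} [Fintype ι] (d : ι → Module.End F A) (hL : ∀ i, Leib (d i))
    (hc : ∀ i j, Commute (d i) (d j)) (hN : ∀ i a, ∃ n : ℕ, (d i ^ n) a = 0)
    (hC : Submodule.span F {u : C | IsUnit u} = ⊤) {Y : C →ₗ[F] A} (hY : IsTw Y) :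
    ∃ Y' : C →ₗ[F] A, IsTw Y' ∧ ∀ i p, d i (Y' p) = 0 := by
  classical
  have key : ∀ S : Finset ι, ∀ Y : C →ₗ[F] A, IsTw Y → (∀ i, i ∉ S → ∀ p, d i (Y p) = 0) →
      ∃ Y' : C →ₗ[F] A, IsTw Y' ∧ ∀ i p, d i (Y' p) = 0 := by
    intro S
    induction S using Finset.induction_on with
    | empty => intro Y hY h; exact ⟨Y, hY, fun i => h i (by simp)⟩
    | insert i S hi ih =>
      intro Y hY h
      obtain ⟨D, h1, h2⟩ := hY.step hA (hL i) (hN i) hC
      refine ih _ h1 ?_
      intro j hj p
      rw [LinearMap.comp_apply]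
      by_cases hji : j = i
      · subst hji
        rw [← Module.End.mul_apply, ← pow_succ']; exact h2 p
      · have h3 : Commute (d j) (d i ^ D) := (hc j i).pow_right D
        have h4 := congrArg (fun f : Module.End F A => f (Y p)) h3.eq
        simp only [Module.End.mul_apply] at h4
        rw [h4, h j (by simp [hji, hj]), map_zero]
  exact key Finset.univ Y hY (by simp)

end Pool.Agent.T2h10.WV
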