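import Pool.Agent.T2h10.WV.Memb2
import Pool.Agent.T2h10.WV.Lnd
import Pool.Agent.R693.G.PieceG

/-!
The module of delta functions at the point `(1, 2)`: polynomials in `x`, `y`, on which `∂_s`, `∂_t` act by
multiplication with `x`, `y` and `s`, `t` act by `1 - ∂_x`, `2 - ∂_y`.
-/

set_option autoImplicit false
set_option linter.unusedSimpArgs false

namespace Pool.Agent.T2h10.WV

open MvPolynomial

variable (F : Type) [Field F]

/-- The underlying space. -/
abbrev DM := MvPolynomial (Fin 2) F

/-- The partial derivatives. -/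
noncomputable def dd (i : Fin 2) : Module.End F (DM F) :=
  ((pderiv i : Derivation F (DM F) (DM F)) : DM F →ₗ[F] DM F)

/-- The multiplications. -/
noncomputable def xx (i : Fin 2) : Module.End F (DM F) := LinearMap.mulLeft F (MvPolynomial.X i : DM F)

variable {F}

theorem dd_apply (i : Fin 2) (v : DM F) : dd F i v = pderiv i v := rfl

theorem xx_apply (i : Fin 2) (v : DM F) : xx F i v = MvPolynomial.X i * v := rfl

theorem dd_comm' : dd F 0 * dd F 1 = dd F 1 * dd F 0 :=
  (Pool.Agent.R693.G.std_isWP F 2).2.1 0 1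

theorem dd_xx (i : Fin 2) : dd F i * xx F i = xx F i * dd F i + 1 := by
  have := (Pool.Agent.R693.G.std_isWP F 2).2.2 i i
  rw [if_pos rfl] at this
  exact (sub_eq_iff_eq_add'.1 this)

theorem dd_xx' (i j : Fin 2) (h : i ≠ j) : dd F i * xx F j = xx F j * dd F i := by
  have := (Pool.Agent.R693.G.std_isWP F 2).2.2 i j
  rw [if_neg h] at this
  exact (sub_eq_zero.1 this)

theorem xx_comm' : xx F 0 * xx F 1 = xx F 1 * xx F 0 :=
  (Pool.Agent.R693.G.std_isWP F 2).1 0 1

theorem dd_ln (α β : F) (v : DM F) : ∃ n : ℕ, ((α • dd F 0 + β • dd F 1) ^ n) v = 0 := by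
  have hL : Leib (α • dd F 0 + β • dd F 1) := by
    intro a b
    simp only [LinearMap.add_apply, LinearMap.smul_apply, dd_apply, Derivation.leibniz, smul_eq_mul,
      smul_add, MvPolynomial.smul_eq_C_mul]
    ring
  induction v using MvPolynomial.induction_on with
  | C a =>
    refine ⟨1, ?_⟩
    rw [pow_one]
    simp [dd_apply]
  | add p q hp hq =>
    obtain ⟨n, hn⟩ := hp
    obtain ⟨k, hk⟩ := hq
    exact ⟨n + k, by rw [map_add, pow_zero_of_le hn (Nat.le_add_right _ _),
      pow_zero_of_le hk (Nat.le_add_left _ _), add_zero]⟩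
  | mul_X p i hp =>
    obtain ⟨n, hn⟩ := hp
    refine ⟨n + 2, pow_mul_zero hL _ n 2 p (MvPolynomial.X i) (by omega) hn ?_⟩
    rw [pow_two, Module.End.mul_apply]
    simp only [LinearMap.add_apply, LinearMap.smul_apply, dd_apply, pderiv_X]
    fin_cases i <;> simp [Pi.single_apply, dd_apply]

/-- `1 - D` is invertible for locally nilpotent `D`. -/
theorem isUnit_one_sub {V : Type*} [AddCommGroup V] [Module F V] (D : Module.End F V)
    (h : ∀ v, ∃ n : ℕ, (D ^ n) v = 0) : IsUnit (1 - D) := by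
  rw [Module.End.isUnit_iff]
  constructor
  · rw [← LinearMap.ker_eq_bot, LinearMap.ker_eq_bot']
    intro v hv
    have h1 : D v = v := by
      rw [LinearMap.sub_apply, Module.End.one_apply, sub_eq_zero] at hv
      exact hv.symm
    have h2 : ∀ n : ℕ, (D ^ n) v = v := by
      intro n
      induction n with
      | zero => simp
      | succ n ih => rw [pow_succ, Module.End.mul_apply, h1, ih]
    obtain ⟨n, hn⟩ := h v
    rw [← h2 n, hn]
  · intro v
    obtain ⟨n, hn⟩ := h v
    refine ⟨(∑ i ∈ Finset.range n, D ^ i) v, ?_⟩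
    have h1 := mul_neg_geom_sum D n
    have h2 := congrArg (fun f : Module.End F V => f v) h1
    simp only [Module.End.mul_apply, LinearMap.sub_apply, Module.End.one_apply, hn, sub_zero] at h2
    exact h2

theorem isUnit_S : IsUnit (1 - dd F 0) := by
  apply isUnit_one_sub
  intro v
  obtain ⟨n, hn⟩ := dd_ln (1 : F) 0 v
  exact ⟨n, by simpa using hn⟩

theorem isUnit_T [CharZero F] : IsUnit (2 - dd F 1) := by
  have h1 : IsUnit (1 - (2 : F)⁻¹ • dd F 1) := by
    apply isUnit_one_sub
    intro v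
    obtain ⟨n, hn⟩ := dd_ln (0 : F) (2 : F)⁻¹ v
    exact ⟨n, by simpa using hn⟩
  have h2 : IsUnit (algebraMap F (Module.End F (DM F)) 2) :=
    (IsUnit.mk0 (2 : F) two_ne_zero).map (algebraMap F (Module.End F (DM F)))
  have h3 : algebraMap F (Module.End F (DM F)) 2 * (1 - (2 : F)⁻¹ • dd F 1) = 2 - dd F 1 := by
    rw [mul_sub, mul_one, ← Algebra.smul_def, smul_smul, mul_inv_cancel₀ two_ne_zero, one_smul, map_ofNat]
  rw [← h3]
  exact h2.mul h1

/-- `s`. -/
noncomputable def uS (F : Type) [Field F] : (Module.End F (DM F))ˣ := (isUnit_S (F := F)).unit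

/-- `t`. -/
noncomputable def uT (F : Type) [Field F] [CharZero F] : (Module.End F (DM F))ˣ :=
  (isUnit_T (F := F)).unit

variable [CharZero F]

theorem uS_val : (uS F : Module.End F (DM F)) = 1 - dd F 0 := IsUnit.unit_spec _

theorem uT_val : (uT F : Module.End F (DM F)) = 2 - dd F 1 := IsUnit.unit_spec _

theorem uS_uT : Commute (uS F) (uT F) := by
  apply Units.ext
  rw [Units.val_mul, Units.val_mul, uS_val, uT_val]
  have := dd_comm' (F := F)
  rw [mul_sub, sub_mul, sub_mul, sub_mul, mul_sub, mul_sub, this, one_mul, one_mul, mul_one, mul_one,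
    (Commute.ofNat_right (dd F 0) 2).eq]

/-- Monomials as operators. -/
noncomputable def monH (F : Type) [Field F] [CharZero F] :
    Multiplicative (ℤ × ℤ) →* Module.End F (DM F) where
  toFun g := ((uS F ^ (Multiplicative.toAdd g).1 * uT F ^ (Multiplicative.toAdd g).2 :
    (Module.End F (DM F))ˣ) : Module.End F (DM F))
  map_one' := by simp
  map_mul' g h := by
    rw [← Units.val_mul]
    congr 1
    rw [toAdd_mul, Prod.fst_add, Prod.snd_add, zpow_add, zpow_add]
    have := (uS_uT (F := F)).zpow_zpow (Multiplicative.toAdd h).1 (Multiplicative.toAdd g).2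
    rw [mul_assoc, mul_assoc, ← mul_assoc (uS F ^ _) (uT F ^ _) (uT F ^ _), this.eq, mul_assoc]

/-- The action of Laurent polynomials. -/
noncomputable def rho (F : Type) [Field F] [CharZero F] : C2 F →ₐ[F] Module.End F (DM F) :=
  AddMonoidAlgebra.lift F _ (ℤ × ℤ) (monH F)

theorem rho_single (a b : ℤ) (r : F) : rho F (AddMonoidAlgebra.single (a, b) r) =
    r • ((uS F ^ a * uT F ^ b : (Module.End F (DM F))ˣ) : Module.End F (DM F)) := by
  rw [rho, AddMonoidAlgebra.lift_single]
  rfl

noncomputable instance : Module (C2 F) (DM F) := Module.compHom (DM F) (rho F).toRingHom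

theorem smul_rho (c : C2 F) (v : DM F) : c • v = rho F c v := rfl

instance : IsScalarTower F (C2 F) (DM F) where
  smul_assoc r c v := by rw [smul_rho, smul_rho, map_smul]; rfl

theorem unit_brk {E : Type*} [Ring E] (u : Eˣ) (P : E) (h : P * u = u * P + 1) (n : ℤ) :
    P * ((u ^ n : Eˣ) : E) = ((u ^ n : Eˣ) : E) * P + n • ((u ^ (n - 1) : Eˣ) : E) := by
  induction n using Int.induction_on with
  | zero => simp
  | succ n ih =>
    have e1 : ((u ^ ((n : ℤ) + 1) : Eˣ) : E) = ((u ^ (n : ℤ) : Eˣ) : E) * u := by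
      rw [zpow_add_one, Units.val_mul]
    have e2 : ((u ^ (n : ℤ) : Eˣ) : E) = ((u ^ ((n : ℤ) - 1) : Eˣ) : E) * u := by
      rw [← Units.val_mul, ← zpow_add_one, sub_add_cancel]
    rw [add_sub_cancel_right, e1, ← mul_assoc, ih, add_mul, smul_mul_assoc, ← e2, mul_assoc, h, mul_add,
      mul_assoc, add_smul, one_smul, mul_one]
    abel
  | pred n ih =>
    have h' : P * ((u⁻¹ : Eˣ) : E) = ((u⁻¹ : Eˣ) : E) * P - ((u⁻¹ : Eˣ) : E) * ((u⁻¹ : Eˣ) : E) := by
      have h1 := congrArg (fun z => ((u⁻¹ : Eˣ) : E) * z * ((u⁻¹ : Eˣ) : E)) h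
      simp only [mul_add, add_mul, mul_one] at h1
      rw [mul_assoc, mul_assoc, Units.mul_inv, mul_one, ← mul_assoc, Units.inv_mul, one_mul]
        at h1
      rw [h1]; abel
    have e1 : ((u ^ (-(n : ℤ) - 1) : Eˣ) : E) = ((u ^ (-(n : ℤ)) : Eˣ) : E) * ((u⁻¹ : Eˣ) : E) := by
      rw [zpow_sub_one, Units.val_mul]
    have e2 : ((u ^ (-(n : ℤ) - 1 - 1) : Eˣ) : E) =
        ((u ^ (-(n : ℤ) - 1) : Eˣ) : E) * ((u⁻¹ : Eˣ) : E) := by
      rw [zpow_sub_one u (-(n : ℤ) - 1), Units.val_mul]
    rw [e2]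
    nth_rewrite 1 [e1]
    rw [← mul_assoc, ih, add_mul, smul_mul_assoc, mul_assoc _ P, h', mul_sub, ← mul_assoc, ← mul_assoc,
      ← e1, sub_smul, one_smul]
    abel

theorem comm_brk {E : Type*} [Ring E] (u : Eˣ) (P : E) (h : P * u = u * P) (n : ℤ) :
    P * ((u ^ n : Eˣ) : E) = ((u ^ n : Eˣ) : E) * P := by
  have : Commute P (u : E) := h
  exact (this.units_zpow_right n).eq

theorem xS0 : xx F 0 * (uS F : Module.End F (DM F)) = (uS F : Module.End F (DM F)) * xx F 0 + 1 := by
  rw [uS_val, mul_sub, sub_mul, dd_xx]; noncomm_ring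

theorem xT0 : xx F 0 * (uT F : Module.End F (DM F)) = (uT F : Module.End F (DM F)) * xx F 0 := by
  rw [uT_val, mul_sub, sub_mul, dd_xx' 1 0 (by decide)]; noncomm_ring

theorem xS1 : xx F 1 * (uS F : Module.End F (DM F)) = (uS F : Module.End F (DM F)) * xx F 1 := by
  rw [uS_val, mul_sub, sub_mul, dd_xx' 0 1 (by decide)]; noncomm_ring

theorem xT1 : xx F 1 * (uT F : Module.End F (DM F)) = (uT F : Module.End F (DM F)) * xx F 1 + 1 := by
  rw [uT_val, mul_sub, sub_mul, dd_xx]; noncomm_ring

theorem rho_P (c : C2 F) : xx F 0 * rho F c = rho F c * xx F 0 + rho F (dS F c) := by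
  induction c using AddMonoidAlgebra.induction_linear with
  | zero => simp
  | add a a' ha ha' => simp only [map_add, mul_add, add_mul, ha, ha']; abel
  | single g r =>
    obtain ⟨a, b⟩ := g
    rw [dS_single, rho_single, rho_single, mul_smul_comm, Units.val_mul, Units.val_mul, ← mul_assoc,
      unit_brk _ _ xS0, add_mul, mul_assoc, comm_brk _ _ xT0, ← mul_assoc, smul_add, smul_mul_assoc]
    congr 1
    rw [← Int.cast_smul_eq_zsmul F, smul_smul, mul_comm r]

theorem rho_Q (c : C2 F) : xx F 1 * rho F c = rho F c * xx F 1 + rho F (dT F c) := by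
  induction c using AddMonoidAlgebra.induction_linear with
  | zero => simp
  | add a a' ha ha' => simp only [map_add, mul_add, add_mul, ha, ha']; abel
  | single g r =>
    obtain ⟨a, b⟩ := g
    rw [dT_single, rho_single, rho_single, mul_smul_comm, Units.val_mul, Units.val_mul, ← mul_assoc,
      comm_brk _ _ xS1, mul_assoc, unit_brk _ _ xT1, mul_add, ← mul_assoc, smul_add, smul_mul_assoc]
    congr 1
    rw [mul_smul_comm, ← Int.cast_smul_eq_zsmul F, smul_smul, mul_comm r]

/-- The module of delta functions, with its connections. -/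
noncomputable def DD (F : Type) [Field F] [CharZero F] : Conn F (C2 F) (DM F) where
  ds := dS F
  dt := dT F
  P := xx F 0
  Q := xx F 1
  comm := dd_comm
  hP c m := congrArg (fun f : Module.End F (DM F) => f m) (rho_P c)
  hQ c m := congrArg (fun f : Module.End F (DM F) => f m) (rho_Q c)
  hPQ m := (congrArg (fun f : Module.End F (DM F) => f m) xx_comm').symm

end Pool.Agent.T2h10.WV
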