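import Pool.Agent.T2h10.WV.Alg2

/-!
Laurent polynomials in two variables, with their two derivations and the exchange of the variables.
-/

set_option autoImplicit false
set_option linter.unusedSimpArgs false

namespace Pool.Agent.T2h10.WV

open AddMonoidAlgebra

section Lop

variable {F G : Type*} [Field F]

/-- The linear map `x ^ g ↦ l g * x ^ (sh g)`. -/
noncomputable def lop (l : G → F) (sh : G → G) : AddMonoidAlgebra F G →ₗ[F] AddMonoidAlgebra F G :=
  (coeffLinearEquiv F).symm.toLinearMap ∘ₗ
    (Finsupp.lsum F fun g => (Finsupp.lsingle (sh g) : F →ₗ[F] G →₀ F) ∘ₗ LinearMap.mulLeft F (l g)) ∘ₗ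
      (coeffLinearEquiv F).toLinearMap

@[simp] theorem lop_single (l : G → F) (sh : G → G) (g : G) (r : F) :
    lop l sh (single g r) = single (sh g) (l g * r) := by
  simp [lop]
  rw [← Finsupp.single_mul]
  rfl

end Lop

variable (F : Type*) [Field F]

/-- Laurent polynomials in `s`, `t`. -/
abbrev C2 := AddMonoidAlgebra F (ℤ × ℤ)

/-- The partial derivative with respect to `s`. -/
noncomputable def dS : Derivation F (C2 F) (C2 F) :=
  Derivation.mk' (lop (fun g : ℤ × ℤ => (g.1 : F)) (fun g => g - (1, 0))) (by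
    intro a b
    induction a using AddMonoidAlgebra.induction_linear with
    | zero => simp
    | add a a' ha ha' => rw [add_mul, map_add, ha, ha', map_add, add_smul, smul_add]; abel
    | single g r =>
      induction b using AddMonoidAlgebra.induction_linear with
      | zero => simp
      | add b b' hb hb' => rw [mul_add, map_add, hb, hb', map_add, add_smul, smul_add]; abel
      | single h q =>
        simp only [single_mul_single, lop_single, smul_eq_mul]
        rw [show g + (h - (1, 0)) = g + h - (1, 0) by abel,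
          show h + (g - (1, 0)) = g + h - (1, 0) by abel, ← single_add]
        congr 1
        simp only [Prod.fst_add, Int.cast_add]
        ring)

/-- The partial derivative with respect to `t`. -/
noncomputable def dT : Derivation F (C2 F) (C2 F) :=
  Derivation.mk' (lop (fun g : ℤ × ℤ => (g.2 : F)) (fun g => g - (0, 1))) (by
    intro a b
    induction a using AddMonoidAlgebra.induction_linear with
    | zero => simp
    | add a a' ha ha' => rw [add_mul, map_add, ha, ha', map_add, add_smul, smul_add]; abel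
    | single g r =>
      induction b using AddMonoidAlgebra.induction_linear with
      | zero => simp
      | add b b' hb hb' => rw [mul_add, map_add, hb, hb', map_add, add_smul, smul_add]; abel
      | single h q =>
        simp only [single_mul_single, lop_single, smul_eq_mul]
        rw [show g + (h - (0, 1)) = g + h - (0, 1) by abel,
          show h + (g - (0, 1)) = g + h - (0, 1) by abel, ← single_add]
        congr 1
        simp only [Prod.snd_add, Int.cast_add]
        ring)

/-- The exchange of `s` and `t`. -/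
noncomputable def swp : C2 F ≃ₐ[F] C2 F := AddMonoidAlgebra.domCongr F F AddEquiv.prodComm

variable {F}

theorem dS_single (a b : ℤ) (r : F) :
    dS F (single (a, b) r) = single (a - 1, b) ((a : F) * r) := by
  change lop _ _ _ = _
  rw [lop_single]; simp

theorem dT_single (a b : ℤ) (r : F) :
    dT F (single (a, b) r) = single (a, b - 1) ((b : F) * r) := by
  change lop _ _ _ = _
  rw [lop_single]; simp

theorem swp_single (a b : ℤ) (r : F) : swp F (single (a, b) r) = single (b, a) r := by
  simp [swp]

theorem dd_comm (c : C2 F) : dT F (dS F c) = dS F (dT F c) := by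
  induction c using AddMonoidAlgebra.induction_linear with
  | zero => simp
  | add a a' ha ha' => simp only [map_add, ha, ha']
  | single g r =>
    obtain ⟨a, b⟩ := g
    rw [dS_single, dT_single, dT_single, dS_single]
    congr 1; ring

theorem swp_swp (c : C2 F) : swp F (swp F c) = c := by
  induction c using AddMonoidAlgebra.induction_linear with
  | zero => simp
  | add a a' ha ha' => simp only [map_add, ha, ha']
  | single g r =>
    obtain ⟨a, b⟩ := g
    rw [swp_single, swp_single]

theorem swp_dS (c : C2 F) : swp F (dS F c) = dT F (swp F c) := by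
  induction c using AddMonoidAlgebra.induction_linear with
  | zero => simp
  | add a a' ha ha' => simp only [map_add, ha, ha']
  | single g r =>
    obtain ⟨a, b⟩ := g
    rw [dS_single, swp_single, swp_single, dT_single]

theorem swp_dT (c : C2 F) : swp F (dT F c) = dS F (swp F c) := by
  induction c using AddMonoidAlgebra.induction_linear with
  | zero => simp
  | add a a' ha ha' => simp only [map_add, ha, ha']
  | single g r =>
    obtain ⟨a, b⟩ := g
    rw [dT_single, swp_single, swp_single, dS_single]

/-- `s ^ a`. -/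
noncomputable def sp (a : ℤ) : C2 F := single (a, 0) 1
/-- `t ^ b`. -/
noncomputable def tp (b : ℤ) : C2 F := single (0, b) 1

theorem dS_sp (a : ℤ) : dS F (sp a) = (a : F) • sp (a - 1) := by
  rw [sp, sp, dS_single, smul_single', mul_one]
theorem dT_sp (a : ℤ) : dT F (sp a) = 0 := by
  rw [sp, dT_single]; simp
theorem dT_tp (a : ℤ) : dT F (tp a) = (a : F) • tp (a - 1) := by
  rw [tp, tp, dT_single, smul_single', mul_one]
theorem dS_tp (a : ℤ) : dS F (tp a) = 0 := by
  rw [tp, dS_single]; simp
theorem swp_sp (a : ℤ) : swp F (sp a) = tp a := swp_single _ _ _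
theorem swp_tp (a : ℤ) : swp F (tp a) = sp a := swp_single _ _ _
theorem sp_add (a b : ℤ) : (sp (a + b) : C2 F) = sp a * sp b := by
  simp [sp, single_mul_single]
theorem tp_add (a b : ℤ) : (tp (a + b) : C2 F) = tp a * tp b := by
  simp [tp, single_mul_single]
theorem sp_zero : (sp 0 : C2 F) = 1 := rfl
theorem tp_zero : (tp 0 : C2 F) = 1 := rfl
theorem sp_mul_tp (a b : ℤ) (r : F) : (single (a, b) r : C2 F) = r • (sp a * tp b) := by
  simp [sp, tp, single_mul_single]
theorem sp_nat (n : ℕ) : (sp (n : ℤ) : C2 F) = sp 1 ^ n := by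
  induction n with
  | zero => simp [sp_zero]
  | succ n ih => rw [Nat.cast_succ, sp_add, ih, pow_succ]
theorem tp_nat (n : ℕ) : (tp (n : ℤ) : C2 F) = tp 1 ^ n := by
  induction n with
  | zero => simp [tp_zero]
  | succ n ih => rw [Nat.cast_succ, tp_add, ih, pow_succ]

/-- `s - t`. -/
noncomputable def dl : C2 F := sp 1 - tp 1

theorem dS_dl : dS F dl = 1 := by
  rw [dl, map_sub, dS_sp, dS_tp]; simp [sp_zero]
theorem dT_dl : dT F dl = -1 := by
  rw [dl, map_sub, dT_sp, dT_tp]; simp [tp_zero]
theorem swp_dl : swp F dl = -dl := by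
  rw [dl, map_sub, swp_sp, swp_tp]; ring

theorem dl_ne : (dl : C2 F) ≠ 0 := by
  intro h
  have := dS_dl (F := F)
  rw [h, map_zero] at this
  exact zero_ne_one this

/-- `s ^ a - t ^ a` is divisible by `s - t`, with a symmetric quotient. -/
theorem exists_q (a : ℤ) : ∃ q : C2 F, sp a - tp a = dl * q ∧ swp F q = q := by
  have key : ∀ n : ℕ, ∃ q : C2 F, sp (n : ℤ) - tp (n : ℤ) = dl * q ∧ swp F q = q := by
    intro n
    refine ⟨∑ i ∈ Finset.range n, sp 1 ^ i * tp 1 ^ (n - 1 - i), ?_, ?_⟩
    · rw [sp_nat, tp_nat, dl, mul_comm, Commute.geom_sum₂_mul (Commute.all _ _)]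
    · rw [map_sum]
      simp only [map_mul, map_pow, swp_sp, swp_tp]
      rw [← Finset.sum_range_reflect]
      apply Finset.sum_congr rfl
      intro j hj
      rw [Finset.mem_range] at hj
      rw [mul_comm]
      congr 2
      omega
  obtain ⟨n, rfl | rfl⟩ := a.eq_nat_or_neg
  · exact key n
  · obtain ⟨q, h1, h2⟩ := key n
    refine ⟨-(sp (-(n : ℤ)) * tp (-(n : ℤ)) * q), ?_, ?_⟩
    · have e1 : (sp (-(n : ℤ)) : C2 F) * sp n = 1 := by rw [← sp_add]; simp [sp_zero]
      have e2 : (tp (-(n : ℤ)) : C2 F) * tp n = 1 := by rw [← tp_add]; simp [tp_zero]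
      calc (sp (-(n : ℤ)) - tp (-(n : ℤ)) : C2 F) = sp (-(n : ℤ)) * (tp (-(n : ℤ)) * tp n) -
            tp (-(n : ℤ)) * (sp (-(n : ℤ)) * sp n) := by rw [e1, e2]; ring
        _ = -(sp (-(n : ℤ)) * tp (-(n : ℤ)) * (sp (n : ℤ) - tp (n : ℤ))) := by ring
        _ = _ := by rw [h1]; ring
    · rw [map_neg, map_mul, map_mul, swp_sp, swp_tp, h2]; ring

/-- The vector field `s ^ a ∂_s + t ^ a ∂_t`. -/
noncomputable def Lv (a : ℤ) (c : C2 F) : C2 F := sp a * dS F c + tp a * dT F c

theorem Lv_apply (a : ℤ) (c : C2 F) : Lv a c = sp a * dS F c + tp a * dT F c := rfl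

/-- Symmetric multiples of `(s - t) ^ 6`. -/
def Sym6 (h : C2 F) : Prop := ∃ G : C2 F, swp F G = G ∧ h = dl ^ 6 * G

theorem Sym6.mul {h g : C2 F} (hh : Sym6 h) (hg : swp F g = g) : Sym6 (h * g) := by
  obtain ⟨G, h1, rfl⟩ := hh
  exact ⟨G * g, by rw [map_mul, h1, hg], by ring⟩

theorem Sym6.swp {h : C2 F} (hh : Sym6 h) : swp F h = h := by
  obtain ⟨G, h1, rfl⟩ := hh
  rw [map_mul, map_pow, h1, swp_dl]; ring

theorem Sym6.lv {h : C2 F} (hh : Sym6 h) (a : ℤ) : Sym6 (Lv a h) := by
  obtain ⟨G, h1, rfl⟩ := hh
  obtain ⟨q, hq, hq2⟩ := exists_q (F := F) a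
  refine ⟨(6 : ℕ) • (q * G) + Lv a G, ?_, ?_⟩
  · rw [map_add, map_nsmul, map_mul, hq2, h1, Lv_apply, map_add, map_mul, map_mul, swp_sp, swp_tp,
      swp_dS, swp_dT, h1]
    ring
  · have e : sp a = tp a + dl * q := by rw [← hq]; ring
    rw [Lv_apply, Lv_apply, Derivation.leibniz, Derivation.leibniz, Derivation.leibniz_pow,
      Derivation.leibniz_pow, dS_dl, dT_dl]
    simp only [smul_eq_mul, nsmul_eq_mul, e]
    push_cast
    ring

end Pool.Agent.T2h10.WV
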