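import Pool.Agent.T2h10.WV.Lnd
import Pool.Agent.T2h10.WV.Laurent

/-!
The Weyl algebra with one position variable inverted, as an algebra of operators.
-/

set_option autoImplicit false
set_option linter.unusedSimpArgs false

namespace Pool.Agent.T2h10.WV

open AddMonoidAlgebra

theorem lop_leib {F G : Type*} [Field F] [AddCommMonoid G] (l : G → F) (sh : G → G)
    (hl : ∀ g h, l (g + h) = l g + l h) (hs : ∀ g h, l g ≠ 0 → sh g + h = sh (g + h))
    (a b : AddMonoidAlgebra F G) : lop l sh (a * b) = a * lop l sh b + b * lop l sh a := by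
  induction a using AddMonoidAlgebra.induction_linear with
  | zero => simp
  | add a a' ha ha' => rw [add_mul, map_add, ha, ha', map_add]; ring
  | single g r =>
    induction b using AddMonoidAlgebra.induction_linear with
    | zero => simp
    | add b b' hb hb' => rw [mul_add, map_add, hb, hb', map_add]; ring
    | single h q =>
      simp only [single_mul_single, lop_single]
      have e1 : single (h + sh g) (q * (l g * r)) = single (sh (g + h)) (q * (l g * r)) := by
        by_cases h0 : l g = 0
        · rw [h0]; simp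
        · rw [add_comm h, hs g h h0]
      have e2 : single (g + sh h) (r * (l h * q)) = single (sh (g + h)) (r * (l h * q)) := by
        by_cases h0 : l h = 0
        · rw [h0]; simp
        · rw [add_comm g (sh h), hs h g h0, add_comm h g]
      rw [e1, e2, ← single_add, hl]
      congr 1; ring

variable (F : Type*) [Field F] (m : ℕ)

/-- Laurent polynomials in `t`, polynomials in `s_1, …, s_m`. -/
abbrev LP := AddMonoidAlgebra F (ℤ × (Fin m →₀ ℕ))

/-- The partial derivative with respect to `t`. -/
noncomputable def pt : LP F m →ₗ[F] LP F m :=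
  lop (fun g => (g.1 : F)) (fun g => (g.1 - 1, g.2))

/-- The partial derivative with respect to `s_i`. -/
noncomputable def ps (i : Fin m) : LP F m →ₗ[F] LP F m :=
  lop (fun g => (g.2 i : F)) (fun g => (g.1, g.2 - Finsupp.single i 1))

/-- The power `t ^ a`. -/
noncomputable def vt (a : ℤ) : LP F m := single (a, 0) 1

/-- The variable `s_i`. -/
noncomputable def vs (i : Fin m) : LP F m := single (0, Finsupp.single i 1) 1

/-- The algebra generated by the multiplications by `t`, `t⁻¹`, `s_i` and the partial derivatives. -/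
noncomputable def LW : Subalgebra F (Module.End F (LP F m)) :=
  Algebra.adjoin F ({LinearMap.mulLeft F (vt F m 1), LinearMap.mulLeft F (vt F m (-1)), pt F m} ∪
    Set.range (fun i => LinearMap.mulLeft F (vs F m i)) ∪ Set.range (fun i => ps F m i))

variable {F m}

theorem pt_leib (a b : LP F m) : pt F m (a * b) = a * pt F m b + b * pt F m a := by
  apply lop_leib
  · intro g h; simp
  · intro g h _; ext1
    · simp; ring
    · simp

theorem ps_leib (i : Fin m) (a b : LP F m) : ps F m i (a * b) = a * ps F m i b + b * ps F m i a := by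
  apply lop_leib
  · intro g h; simp
  · intro g h h0
    have h1 : 1 ≤ g.2 i := by
      rcases Nat.eq_zero_or_pos (g.2 i) with h2 | h2
      · rw [h2] at h0; simp at h0
      · exact h2
    have h3 : Finsupp.single i 1 ≤ g.2 := by rwa [Finsupp.single_le_iff]
    ext1
    · simp
    · simp only [Prod.snd_add]
      rw [tsub_add_eq_add_tsub h3]

theorem pt_vt (a : ℤ) : pt F m (vt F m a) = (a : F) • vt F m (a - 1) := by
  rw [pt, vt, vt, lop_single, smul_single', mul_one]

theorem pt_vs (i : Fin m) : pt F m (vs F m i) = 0 := by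
  rw [pt, vs, lop_single]; simp

theorem ps_vt (i : Fin m) (a : ℤ) : ps F m i (vt F m a) = 0 := by
  rw [ps, vt, lop_single]; simp

theorem ps_vs (i j : Fin m) : ps F m i (vs F m j) = if i = j then 1 else 0 := by
  rw [ps, vs, lop_single]
  by_cases h : i = j
  · subst h; simp; rfl
  · rw [if_neg h]
    simp [Finsupp.single_apply, Ne.symm h]

theorem pt_ps (i : Fin m) (c : LP F m) : pt F m (ps F m i c) = ps F m i (pt F m c) := by
  induction c using AddMonoidAlgebra.induction_linear with
  | zero => simp
  | add a a' ha ha' => simp only [map_add, ha, ha']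
  | single g r =>
    simp only [pt, ps, lop_single]
    congr 1; ring

theorem ps_ps (i j : Fin m) (c : LP F m) : ps F m i (ps F m j c) = ps F m j (ps F m i c) := by
  induction c using AddMonoidAlgebra.induction_linear with
  | zero => simp
  | add a a' ha ha' => simp only [map_add, ha, ha']
  | single g r =>
    by_cases hij : i = j
    · rw [hij]
    · simp only [ps, lop_single]
      have e : g.2 - Finsupp.single j 1 - Finsupp.single i 1 =
        g.2 - Finsupp.single i 1 - Finsupp.single j 1 := by
        rw [tsub_tsub, tsub_tsub, add_comm]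
      rw [e]
      have e1 : (g.2 - Finsupp.single j 1 : Fin m →₀ ℕ) i = g.2 i := by
        simp [Finsupp.single_apply, Ne.symm hij]
      have e2 : (g.2 - Finsupp.single i 1 : Fin m →₀ ℕ) j = g.2 j := by
        simp [Finsupp.single_apply, hij]
      rw [e1, e2]
      congr 1; ring

/-- `ad c`. -/
noncomputable def adE {E : Type*} [Ring E] [Algebra F E] (c : E) : Module.End F E :=
  LinearMap.mulLeft F c - LinearMap.mulRight F c

theorem adE_apply {E : Type*} [Ring E] [Algebra F E] (c a : E) :
    (adE c : Module.End F E) a = c * a - a * c := rfl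

theorem adE_leib {E : Type*} [Ring E] [Algebra F E] (c : E) : Leib (adE c : Module.End F E) := by
  intro a b
  simp only [adE_apply]
  noncomm_ring

theorem adE_comm {E : Type*} [Ring E] [Algebra F E] (c c' : E)
    (h : ∀ a, (c * c' - c' * c) * a = a * (c * c' - c' * c)) :
    Commute (adE c : Module.End F E) (adE c') := by
  apply LinearMap.ext
  intro a
  simp only [Module.End.mul_apply, adE_apply]
  have := h a
  rw [← sub_eq_zero] at this ⊢
  rw [← this]
  noncomm_ring

/-- The elements `t`, `s_i`, `∂_i`. -/
noncomputable def cc (F : Type*) [Field F] (m : ℕ) : Option (Fin m ⊕ Fin m) → Module.End F (LP F m)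
  | none => LinearMap.mulLeft F (vt F m 1)
  | some (Sum.inl i) => LinearMap.mulLeft F (vs F m i)
  | some (Sum.inr i) => ps F m i

theorem cc_mem (j : Option (Fin m ⊕ Fin m)) : cc F m j ∈ LW F m := by
  apply Algebra.subset_adjoin
  rcases j with _ | i | i
  · exact Or.inl (Or.inl (Or.inl rfl))
  · exact Or.inl (Or.inr ⟨i, rfl⟩)
  · exact Or.inr ⟨i, rfl⟩

theorem mulLeft_comm (a b : LP F m) : LinearMap.mulLeft F a * LinearMap.mulLeft F b =
    LinearMap.mulLeft F b * LinearMap.mulLeft F a := by
  apply LinearMap.ext; intro c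
  simp only [Module.End.mul_apply, LinearMap.mulLeft_apply]; ring

theorem pt_mul (a : LP F m) : pt F m * LinearMap.mulLeft F a - LinearMap.mulLeft F a * pt F m =
    LinearMap.mulLeft F (pt F m a) := by
  apply LinearMap.ext; intro c
  simp only [Module.End.mul_apply, LinearMap.mulLeft_apply, LinearMap.sub_apply, pt_leib]; ring

theorem mul_pt (a : LP F m) : LinearMap.mulLeft F a * pt F m - pt F m * LinearMap.mulLeft F a =
    LinearMap.mulLeft F (-(pt F m a)) := by
  apply LinearMap.ext; intro c
  simp only [Module.End.mul_apply, LinearMap.mulLeft_apply, LinearMap.sub_apply, pt_leib]; ring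

theorem ps_mul (i : Fin m) (a : LP F m) :
    ps F m i * LinearMap.mulLeft F a - LinearMap.mulLeft F a * ps F m i =
    LinearMap.mulLeft F (ps F m i a) := by
  apply LinearMap.ext; intro c
  simp only [Module.End.mul_apply, LinearMap.mulLeft_apply, LinearMap.sub_apply, ps_leib]; ring

theorem pt_ps' (i : Fin m) : pt F m * ps F m i = ps F m i * pt F m := by
  apply LinearMap.ext; intro c
  exact pt_ps i c

theorem ps_ps' (i j : Fin m) : ps F m i * ps F m j = ps F m j * ps F m i := by
  apply LinearMap.ext; intro c
  exact ps_ps i j c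

theorem mulLeft_one' : LinearMap.mulLeft F (1 : LP F m) = 1 := by
  apply LinearMap.ext; intro c; simp

theorem mulLeft_zero' : LinearMap.mulLeft F (0 : LP F m) = 0 := by
  apply LinearMap.ext; intro c; simp

/-- The commutators of the elements `cc` are scalars. -/
theorem cc_cc (j j' : Option (Fin m ⊕ Fin m)) :
    ∃ r : F, cc F m j * cc F m j' - cc F m j' * cc F m j = algebraMap F _ r := by
  have hvs : ∀ i j : Fin m, ∃ r : F, LinearMap.mulLeft F (ps F m i (vs F m j)) =
      algebraMap F (Module.End F (LP F m)) r := by
    intro i j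
    rw [ps_vs]
    split_ifs
    · exact ⟨1, by rw [mulLeft_one', map_one]⟩
    · exact ⟨0, by rw [mulLeft_zero', map_zero]⟩
  have hvt : ∀ i : Fin m, LinearMap.mulLeft F (ps F m i (vt F m 1)) =
      algebraMap F (Module.End F (LP F m)) 0 := by
    intro i
    rw [ps_vt, mulLeft_zero', map_zero]
  rcases j with _ | i | i <;> rcases j' with _ | i' | i' <;> simp only [cc]
  · exact ⟨0, by rw [sub_self, map_zero]⟩
  · exact ⟨0, by rw [mulLeft_comm, sub_self, map_zero]⟩
  · refine ⟨0, ?_⟩
    rw [← neg_sub, ps_mul, hvt, map_zero, neg_zero]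
  · exact ⟨0, by rw [mulLeft_comm, sub_self, map_zero]⟩
  · exact ⟨0, by rw [mulLeft_comm, sub_self, map_zero]⟩
  · obtain ⟨r, hr⟩ := hvs i' i
    refine ⟨-r, ?_⟩
    rw [← neg_sub, ps_mul, hr, map_neg]
  · exact ⟨0, by rw [ps_mul, hvt]⟩
  · obtain ⟨r, hr⟩ := hvs i i'
    exact ⟨r, by rw [ps_mul, hr]⟩
  · exact ⟨0, by rw [ps_ps', sub_self, map_zero]⟩

/-- `ad` of the elements `cc` is locally nilpotent on `LW`. -/
theorem cc_ln (j : Option (Fin m ⊕ Fin m)) (a : Module.End F (LP F m)) (ha : a ∈ LW F m) :
    ∃ n : ℕ, ((adE (cc F m j) : Module.End F (Module.End F (LP F m))) ^ n) a = 0 := by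
  have hsc : ∀ (c : Module.End F (LP F m)) (r : F), (adE c : Module.End F (Module.End F (LP F m)))
      (algebraMap F _ r) = 0 := by
    intro c r
    rw [adE_apply, sub_eq_zero]
    exact (Algebra.commutes r c).symm
  have sq : ∀ c a : Module.End F (LP F m), c * a - a * c = 0 →
      ∃ n : ℕ, ((adE c : Module.End F (Module.End F (LP F m))) ^ n) a = 0 := by
    intro c a h
    exact ⟨1, by rw [pow_one, adE_apply, h]⟩
  have sq2 : ∀ (c a : Module.End F (LP F m)), c * (c * a - a * c) - (c * a - a * c) * c = 0 →
      ∃ n : ℕ, ((adE c : Module.End F (Module.End F (LP F m))) ^ n) a = 0 := by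
    intro c a h
    exact ⟨2, by rw [pow_two, Module.End.mul_apply, adE_apply, adE_apply, h]⟩
  unfold LW at ha
  induction ha using Algebra.adjoin_induction with
  | mem x hx =>
    rcases hx with ((hx | hx | hx) | ⟨i, rfl⟩) | ⟨i, rfl⟩
    · -- x = t
      subst hx
      rcases j with _ | i | i
      · exact sq _ _ (by simp only [cc]; rw [sub_self])
      · exact sq _ _ (by simp only [cc]; rw [mulLeft_comm, sub_self])
      · exact sq _ _ (by simp only [cc]; rw [ps_mul, ps_vt, mulLeft_zero'])
    · subst hx
      rcases j with _ | i | i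
      · exact sq _ _ (by simp only [cc]; rw [mulLeft_comm, sub_self])
      · exact sq _ _ (by simp only [cc]; rw [mulLeft_comm, sub_self])
      · exact sq _ _ (by simp only [cc]; rw [ps_mul, ps_vt, mulLeft_zero'])
    · rw [Set.mem_singleton_iff] at hx
      subst hx
      rcases j with _ | i | i
      · refine sq2 _ _ ?_
        simp only [cc]
        rw [mul_pt, mulLeft_comm, sub_self]
      · refine sq2 _ _ ?_
        simp only [cc]
        rw [mul_pt, mulLeft_comm, sub_self]
      · exact sq _ _ (by simp only [cc]; rw [pt_ps', sub_self])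
    · obtain ⟨r, hr⟩ := cc_cc (F := F) (m := m) j (some (Sum.inl i))
      refine sq2 _ _ ?_
      change cc F m j * (cc F m j * cc F m (some (Sum.inl i)) - cc F m (some (Sum.inl i)) * cc F m j) - _ = 0
      change _ - (cc F m j * cc F m (some (Sum.inl i)) - cc F m (some (Sum.inl i)) * cc F m j) * cc F m j = 0
      rw [hr]
      exact hsc _ _
    · obtain ⟨r, hr⟩ := cc_cc (F := F) (m := m) j (some (Sum.inr i))
      refine sq2 _ _ ?_
      change cc F m j * (cc F m j * cc F m (some (Sum.inr i)) - cc F m (some (Sum.inr i)) * cc F m j) - _ = 0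
      change _ - (cc F m j * cc F m (some (Sum.inr i)) - cc F m (some (Sum.inr i)) * cc F m j) * cc F m j = 0
      rw [hr]
      exact hsc _ _
  | algebraMap r => exact ⟨1, by rw [pow_one]; exact hsc _ r⟩
  | add x y _ _ hx hy =>
    obtain ⟨p, hp⟩ := hx
    obtain ⟨q, hq⟩ := hy
    exact ⟨p + q, by rw [map_add, pow_zero_of_le hp (Nat.le_add_right _ _),
      pow_zero_of_le hq (Nat.le_add_left _ _), add_zero]⟩
  | mul x y _ _ hx hy =>
    obtain ⟨p, hp⟩ := hx
    obtain ⟨q, hq⟩ := hy
    exact ⟨p + q, pow_mul_zero (adE_leib _) _ p q x y (by omega) hp hq⟩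

/-- An operator which commutes with `t` and the `s_i` is a multiplication. -/
theorem eq_mulLeft (a : Module.End F (LP F m)) (h : ∀ j, cc F m j * a - a * cc F m j = 0) :
    a = LinearMap.mulLeft F (a 1) := by
  have ht : ∀ c, a (vt F m 1 * c) = vt F m 1 * a c := by
    intro c
    have := congrArg (fun f : Module.End F (LP F m) => f c) (h none)
    simp only [cc, LinearMap.sub_apply, Module.End.mul_apply, LinearMap.mulLeft_apply,
      LinearMap.zero_apply] at this
    exact (sub_eq_zero.1 this).symm
  have hs : ∀ i c, a (vs F m i * c) = vs F m i * a c := by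
    intro i c
    have := congrArg (fun f : Module.End F (LP F m) => f c) (h (some (Sum.inl i)))
    simp only [cc, LinearMap.sub_apply, Module.End.mul_apply, LinearMap.mulLeft_apply,
      LinearMap.zero_apply] at this
    exact (sub_eq_zero.1 this).symm
  have vv : vt F m 1 * vt F m (-1) = 1 := by
    rw [vt, vt, single_mul_single]; simp; rfl
  have ht' : ∀ c, a (vt F m (-1) * c) = vt F m (-1) * a c := by
    intro c
    have h1 := ht (vt F m (-1) * c)
    rw [← mul_assoc, vv, one_mul] at h1
    rw [h1, ← mul_assoc, mul_comm (vt F m (-1)) (vt F m 1), vv, one_mul]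
  have hn : ∀ n : ℤ, ∀ c, a (vt F m n * c) = vt F m n * a c := by
    intro n
    have e1 : ∀ p q : ℤ, vt F m (p + q) = vt F m p * vt F m q := by
      intro p q; simp [vt, single_mul_single]
    induction n using Int.induction_on with
    | zero =>
      intro c
      have : vt F m 0 = 1 := rfl
      rw [this, one_mul, one_mul]
    | succ n ih =>
      intro c
      rw [e1, mul_assoc, ih, ht, mul_assoc]
    | pred n ih =>
      intro c
      rw [sub_eq_add_neg, e1, mul_assoc, ih, ht', mul_assoc]
  have hα : ∀ α : Fin m →₀ ℕ, ∀ c, a (single (0, α) 1 * c) = single (0, α) 1 * a c := by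
    intro α
    induction α using Finsupp.induction_linear with
    | zero =>
      intro c
      have : (single (0, 0) 1 : LP F m) = 1 := rfl
      rw [this, one_mul, one_mul]
    | add α β hα hβ =>
      intro c
      have : (single (0, α + β) 1 : LP F m) = single (0, α) 1 * single (0, β) 1 := by
        rw [single_mul_single]; simp
      rw [this, mul_assoc, hα, hβ, mul_assoc]
    | single i n =>
      have : (single (0, Finsupp.single i n) 1 : LP F m) = vs F m i ^ n := by
        rw [vs, single_pow]; simp
      rw [this]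
      induction n with
      | zero => intro c; simp
      | succ n ih =>
        have h1 : (single (0, Finsupp.single i n) 1 : LP F m) = vs F m i ^ n := by
          rw [vs, single_pow]; simp
        intro c
        rw [pow_succ, mul_assoc, ih h1, hs, mul_assoc]
  apply LinearMap.ext
  intro c
  rw [LinearMap.mulLeft_apply]
  induction c using AddMonoidAlgebra.induction_linear with
  | zero => simp
  | add a a' ha ha' => rw [map_add, ha, ha', mul_add]
  | single g r =>
    obtain ⟨n, α⟩ := g
    have : (single (n, α) r : LP F m) = r • (vt F m n * (single (0, α) 1 * 1)) := by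
      rw [mul_one, vt, single_mul_single]; simp
    rw [this, map_smul, hn, hα]
    simp only [Algebra.smul_def]
    ring

theorem ps_one (i : Fin m) : ps F m i 1 = 0 := by
  have : (1 : LP F m) = vt F m 0 := rfl
  rw [this, ps_vt]

theorem ps_of_comm (a : Module.End F (LP F m)) (h : ∀ j, cc F m j * a - a * cc F m j = 0) (i : Fin m) :
    ps F m i (a 1) = 0 := by
  have := congrArg (fun f : Module.End F (LP F m) => f 1) (h (some (Sum.inr i)))
  simp only [cc, LinearMap.sub_apply, Module.End.mul_apply, LinearMap.zero_apply] at this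
  rw [ps_one, map_zero, sub_zero] at this
  exact this

theorem coeff_ps (i : Fin m) (c : LP F m) (n : ℤ) (β : Fin m →₀ ℕ) :
    (ps F m i c).coeff (n, β) = ((β i + 1 : ℕ) : F) * c.coeff (n, β + Finsupp.single i 1) := by
  classical
  induction c using AddMonoidAlgebra.induction_linear with
  | zero => simp
  | add a a' ha ha' => rw [map_add, coeff_add, Finsupp.add_apply, ha, ha', coeff_add,
      Finsupp.add_apply]; ring
  | single g r =>
    obtain ⟨a, α⟩ := g
    rw [ps, lop_single, coeff_single, coeff_single, Finsupp.single_apply, Finsupp.single_apply]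
    by_cases h : (a, α) = (n, β + Finsupp.single i 1)
    · rw [if_pos h]
      rw [Prod.mk.injEq] at h
      obtain ⟨rfl, rfl⟩ := h
      simp
    · rw [if_neg h, mul_zero]
      split_ifs with h2
      · rw [Prod.mk.injEq] at h2
        obtain ⟨h3, h4⟩ := h2
        have h5 : α i = 0 := by
          by_contra h5
          apply h
          rw [← h4, tsub_add_cancel_of_le]
          · simpa using h3
          · rw [Finsupp.single_le_iff]
            show 1 ≤ α i
            omega
        show ((α i : ℕ) : F) * r = 0
        rw [h5]; simp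
      · rfl

/-- The elements killed by all `∂_i` are Laurent polynomials in `t`. -/
theorem supp_of_ps [CharZero F] (c : LP F m) (h : ∀ i, ps F m i c = 0) (n : ℤ) (α : Fin m →₀ ℕ)
    (hc : c.coeff (n, α) ≠ 0) : α = 0 := by
  by_contra hα
  obtain ⟨i, hi⟩ : ∃ i, α i ≠ 0 := by
    by_contra hcon
    push Not at hcon
    exact hα (Finsupp.ext hcon)
  have h1 := coeff_ps i c n (α - Finsupp.single i 1)
  have h2 : α - Finsupp.single i 1 + Finsupp.single i 1 = α := by
    apply tsub_add_cancel_of_le
    rw [Finsupp.single_le_iff]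
    omega
  rw [h2, h i] at h1
  have h3 : (((α - Finsupp.single i 1 : Fin m →₀ ℕ) i + 1 : ℕ) : F) ≠ 0 := Nat.cast_ne_zero.2 (by omega)
  rw [coeff_zero, Finsupp.zero_apply] at h1
  rcases mul_eq_zero.1 h1.symm with h4 | h4
  · exact h3 h4
  · exact hc h4

/-- `ad` of the elements `cc` on `LW`. -/
noncomputable def adS (F : Type*) [Field F] (m : ℕ) (j : Option (Fin m ⊕ Fin m)) :
    Module.End F (LW F m) :=
  adE (⟨cc F m j, cc_mem j⟩ : LW F m)

theorem adS_coe (j : Option (Fin m ⊕ Fin m)) (n : ℕ) (a : LW F m) :
    (((adS F m j ^ n) a : LW F m) : Module.End F (LP F m)) =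
      ((adE (cc F m j) : Module.End F (Module.End F (LP F m))) ^ n) a := by
  induction n generalizing a with
  | zero => simp
  | succ n ih =>
    rw [pow_succ, Module.End.mul_apply, ih, pow_succ, Module.End.mul_apply]
    rfl

theorem adS_ln (j : Option (Fin m ⊕ Fin m)) (a : LW F m) : ∃ n : ℕ, (adS F m j ^ n) a = 0 := by
  obtain ⟨n, hn⟩ := cc_ln j a.1 a.2
  exact ⟨n, Subtype.ext (by rw [adS_coe, hn]; rfl)⟩

theorem adS_comm (j j' : Option (Fin m ⊕ Fin m)) : Commute (adS F m j) (adS F m j') := by
  apply adE_comm
  intro a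
  obtain ⟨r, hr⟩ := cc_cc (F := F) (m := m) j j'
  apply Subtype.ext
  change (cc F m j * cc F m j' - cc F m j' * cc F m j) * (a : Module.End F (LP F m)) =
    (a : Module.End F (LP F m)) * (cc F m j * cc F m j' - cc F m j' * cc F m j)
  rw [hr]
  exact Algebra.commutes r _

theorem ker_coe (a : LW F m) (h : ∀ j, adS F m j a = 0) (j : Option (Fin m ⊕ Fin m)) :
    cc F m j * (a : Module.End F (LP F m)) - (a : Module.End F (LP F m)) * cc F m j = 0 :=
  congrArg Subtype.val (h j)

/-- `LW` has no zero divisors. -/
theorem LW_noZD [CharZero F] (a b : LW F m) (hab : a * b = 0) : a = 0 ∨ b = 0 := by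
  refine noZD (adS F m) (fun j => adE_leib _) adS_comm adS_ln ?_ a b hab
  intro a b ha hb hab
  have h1 := eq_mulLeft a.1 (ker_coe a ha)
  have h2 := eq_mulLeft b.1 (ker_coe b hb)
  have h3 := congrArg Subtype.val hab
  change a.1 * b.1 = 0 at h3
  rw [h1, h2] at h3
  have h4 := congrArg (fun f : Module.End F (LP F m) => f 1) h3
  simp only [Module.End.mul_apply, LinearMap.mulLeft_apply, mul_one, LinearMap.zero_apply] at h4
  rcases mul_eq_zero.1 h4 with h | h
  · left; apply Subtype.ext; rw [h1, h, mulLeft_zero']; rfl
  · right; apply Subtype.ext; rw [h2, h, mulLeft_zero']; rfl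

end Pool.Agent.T2h10.WV
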