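import Pool.Agent.T2h10.WV.Laurent

/-!
The algebra generated by the action of the Witt algebra at two points contains the multiplications by
the multiples of a power of `s - t`.
-/

set_option autoImplicit false
set_option linter.unusedSimpArgs false

namespace Pool.Agent.T2h10.WV

open AddMonoidAlgebra

variable {F : Type*} [Field F] {M : Type*} [AddCommGroup M] [Module F M]
  [Module (C2 F) M] [IsScalarTower F (C2 F) M]

variable (D : Conn F (C2 F) M) (la : F)

/-- The action of `t ^ a ∂`. -/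
noncomputable def X (a : ℤ) : Module.End F M := V D la (1 - la) (tp a) (sp a)

/-- The algebra generated by the action. -/
noncomputable def BB : Subalgebra F (Module.End F M) := Algebra.adjoin F (Set.range (X D la))

theorem X_mem (a : ℤ) : X D la a ∈ BB D la := Algebra.subset_adjoin ⟨a, rfl⟩

/-- Multiplication by `c`. -/
noncomputable def ml (c : C2 F) : Module.End F M := Algebra.lsmul F F M c

theorem ml_apply (c : C2 F) (m : M) : (ml c : Module.End F M) m = c • m := rfl

theorem ml_mul (c d : C2 F) : (ml (c * d) : Module.End F M) = ml c * ml d := by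
  unfold ml; rw [map_mul]

theorem ml_add (c d : C2 F) : (ml (c + d) : Module.End F M) = ml c + ml d := by
  unfold ml; rw [map_add]

theorem ml_smul (r : F) (c : C2 F) : (ml (r • c) : Module.End F M) = r • ml c := by
  unfold ml; rw [map_smul]

/-- The bilinear expression `∑ c_ab X a * X b`. -/
noncomputable def X2 : C2 F →ₗ[F] Module.End F M :=
  (Finsupp.linearCombination F (fun g : ℤ × ℤ => X D la g.1 * X D la g.2)) ∘ₗ
    (coeffLinearEquiv F).toLinearMap

theorem X2_single (a b : ℤ) (r : F) : X2 D la (single (a, b) r) = r • (X D la a * X D la b) := by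
  simp [X2]

theorem X2_mem (E : C2 F) : X2 D la E ∈ BB D la := by
  induction E using AddMonoidAlgebra.induction_linear with
  | zero => rw [map_zero]; exact zero_mem _
  | add a a' ha ha' => rw [map_add]; exact add_mem ha ha'
  | single g r =>
    obtain ⟨a, b⟩ := g
    rw [X2_single]
    exact Subalgebra.smul_mem _ (mul_mem (X_mem D la a) (X_mem D la b)) _

/-- The substitution `t = s`. -/
noncomputable def e1 : C2 F →ₐ[F] C2 F :=
  AddMonoidAlgebra.mapDomainAlgHom F F (AddMonoidHom.mk' (fun g : ℤ × ℤ => (g.1 + g.2, (0 : ℤ)))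
    (by intro a b; ext <;> simp; ring))

/-- The substitution `s = t`. -/
noncomputable def e2 : C2 F →ₐ[F] C2 F :=
  AddMonoidAlgebra.mapDomainAlgHom F F (AddMonoidHom.mk' (fun g : ℤ × ℤ => ((0 : ℤ), g.1 + g.2))
    (by intro a b; ext <;> simp; ring))

theorem e1_single (a b : ℤ) (r : F) : (e1 (single (a, b) r) : C2 F) = single (a + b, 0) r := by
  simp [e1]

theorem e2_single (a b : ℤ) (r : F) : (e2 (single (a, b) r) : C2 F) = single (0, a + b) r := by
  simp [e2]

theorem e1_dl : (e1 dl : C2 F) = 0 := by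
  rw [dl, map_sub, sp, tp, e1_single, e1_single]; simp

theorem e2_dl : (e2 dl : C2 F) = 0 := by
  rw [dl, map_sub, sp, tp, e2_single, e2_single]; simp

theorem dS_smul (r : F) (c : C2 F) : dS F (r • c) = r • dS F c := (dS F).map_smul r c

theorem dT_smul (r : F) (c : C2 F) : dT F (r • c) = r • dT F c := (dT F).map_smul r c

theorem e1_smul (r : F) (c : C2 F) : (e1 (r • c) : C2 F) = r • e1 c := map_smul e1 r c

theorem e2_smul (r : F) (c : C2 F) : (e2 (r • c) : C2 F) = r • e2 c := map_smul e2 r c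

theorem X2_apply_one (h1 : D.ds = dS F) (h2 : D.dt = dT F) (a b : ℤ) (E : C2 F) (hE : E = sp a * tp b)
    (m : M) : X2 D la E m =
      (e1 E) • D.P (D.P m) + (e1 (dT F E) + la • e1 (dT F E) + la • e1 (dS F E)) • D.P m +
        (la • e1 (dT F (dT F E)) + (la * la) • e1 (dS F (dT F E))) • m +
      ((e2 E) • D.Q (D.Q m) + (e2 (dT F E) + (1 - la) • e2 (dT F E) + (1 - la) • e2 (dS F E)) • D.Q m +
        ((1 - la) • e2 (dT F (dT F E)) + ((1 - la) * (1 - la)) • e2 (dS F (dT F E))) • m) +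
      K D la (1 - la) E m + K D la (1 - la) (swp F E) m := by
  have hE' : E = single (a, b) 1 := by rw [hE, sp_mul_tp, one_smul]
  have e0 : X2 D la E = X D la a * X D la b := by rw [hE', X2_single, one_smul]
  rw [e0, Module.End.mul_apply, X, X, V_mul_V]
  rotate_left
  · rw [h1, dS_tp]
  · rw [h1, dS_tp]
  · rw [h2, dT_sp]
  · rw [h2, dT_sp]
  have w1 : ∀ n : ℤ, (e1 (sp n) : C2 F) = sp n := by
    intro n; rw [sp, e1_single, add_zero]
  have w2 : ∀ n : ℤ, (e1 (tp n) : C2 F) = sp n := by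
    intro n; rw [tp, e1_single, zero_add]; rfl
  have w3 : ∀ n : ℤ, (e2 (sp n) : C2 F) = tp n := by
    intro n; rw [sp, e2_single, add_zero]; rfl
  have w4 : ∀ n : ℤ, (e2 (tp n) : C2 F) = tp n := by
    intro n; rw [tp, e2_single, zero_add]
  subst hE
  simp only [h1, h2, Derivation.leibniz, dS_sp, dS_tp, dT_sp, dT_tp, dS_smul, dT_smul, e1_smul, e2_smul, map_mul, map_add, map_zero,
    smul_eq_mul, w1, w2, w3, w4, mul_zero, zero_add, add_zero, smul_zero, zero_mul, swp_sp, swp_tp]
  rw [mul_comm (tp a) (sp b)]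
  simp only [Algebra.smul_def]
  module

theorem X2_apply (h1 : D.ds = dS F) (h2 : D.dt = dT F) (E : C2 F) (m : M) :
    X2 D la E m =
      (e1 E) • D.P (D.P m) + (e1 (dT F E) + la • e1 (dT F E) + la • e1 (dS F E)) • D.P m +
        (la • e1 (dT F (dT F E)) + (la * la) • e1 (dS F (dT F E))) • m +
      ((e2 E) • D.Q (D.Q m) + (e2 (dT F E) + (1 - la) • e2 (dT F E) + (1 - la) • e2 (dS F E)) • D.Q m +
        ((1 - la) • e2 (dT F (dT F E)) + ((1 - la) * (1 - la)) • e2 (dS F (dT F E))) • m) +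
      K D la (1 - la) E m + K D la (1 - la) (swp F E) m := by
  induction E using AddMonoidAlgebra.induction_linear with
  | zero => simp [K_apply]
  | add a a' ha ha' =>
    rw [map_add, LinearMap.add_apply, ha, ha']
    simp only [K_apply, map_add, Algebra.smul_def]
    module
  | single g r =>
    obtain ⟨a, b⟩ := g
    have e0 : (single (a, b) r : C2 F) = r • (sp a * tp b) := by rw [sp_mul_tp]
    have := X2_apply_one D la h1 h2 a b _ rfl m
    rw [e0, map_smul, LinearMap.smul_apply, this]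
    generalize (sp a * tp b : C2 F) = E
    simp only [K_apply, h1, h2, map_smul, dS_smul, dT_smul, e1_smul, e2_smul]
    simp only [Algebra.smul_def]
    module

/-- The part of the product `X2` which is divisible by `(s - t) ^ 4` is normally ordered. -/
theorem X2_dl (h1 : D.ds = dS F) (h2 : D.dt = dT F) (E : C2 F) :
    X2 D la (dl ^ 4 * E) = K D la (1 - la) (dl ^ 4 * (E + swp F E)) := by
  have f1 : ∀ G : C2 F, e1 (dl * G) = (0 : C2 F) := by intro G; rw [map_mul, e1_dl, zero_mul]
  have f2 : ∀ G : C2 F, e2 (dl * G) = (0 : C2 F) := by intro G; rw [map_mul, e2_dl, zero_mul]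
  have g1 : ∀ (n : ℕ) (G : C2 F), ∃ H, dT F (dl ^ (n + 1) * G) = dl ^ n * H := by
    intro n G
    refine ⟨dl * dT F G - ((n : C2 F) + 1) * G, ?_⟩
    rw [Derivation.leibniz, Derivation.leibniz_pow, dT_dl]
    simp only [smul_eq_mul, nsmul_eq_mul, Nat.add_one_sub_one]
    push_cast
    ring
  have g2 : ∀ (n : ℕ) (G : C2 F), ∃ H, dS F (dl ^ (n + 1) * G) = dl ^ n * H := by
    intro n G
    refine ⟨dl * dS F G + ((n : C2 F) + 1) * G, ?_⟩
    rw [Derivation.leibniz, Derivation.leibniz_pow, dS_dl]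
    simp only [smul_eq_mul, nsmul_eq_mul, Nat.add_one_sub_one]
    push_cast
    ring
  ext m
  rw [X2_apply D la h1 h2]
  obtain ⟨H1, hH1⟩ := g1 3 E
  obtain ⟨H2, hH2⟩ := g2 3 E
  obtain ⟨H3, hH3⟩ := g1 2 H1
  obtain ⟨H4, hH4⟩ := g2 2 H1
  have e : dl ^ 4 * (E + swp F E) = dl ^ 4 * E + swp F (dl ^ 4 * E) := by
    rw [map_mul, map_pow, swp_dl]; ring
  rw [hH1, hH2, hH3, hH4, e]
  have r4 : dl ^ 4 * E = dl * (dl ^ 3 * E) := by ring
  have r3 : ∀ G : C2 F, dl ^ 3 * G = dl * (dl ^ 2 * G) := by intro G; ring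
  have r2 : ∀ G : C2 F, dl ^ 2 * G = dl * (dl * G) := by intro G; ring
  have z4 : e1 (dl ^ 4 * E) = (0 : C2 F) := by rw [r4, f1]
  have z4' : e2 (dl ^ 4 * E) = (0 : C2 F) := by rw [r4, f2]
  have z3 : ∀ G : C2 F, e1 (dl ^ 3 * G) = (0 : C2 F) := by intro G; rw [r3, f1]
  have z3' : ∀ G : C2 F, e2 (dl ^ 3 * G) = (0 : C2 F) := by intro G; rw [r3, f2]
  have z2 : ∀ G : C2 F, e1 (dl ^ 2 * G) = (0 : C2 F) := by intro G; rw [r2, f1]
  have z2' : ∀ G : C2 F, e2 (dl ^ 2 * G) = (0 : C2 F) := by intro G; rw [r2, f2]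
  rw [z4, z4', z3, z3', z3, z3', z2, z2', z2, z2']
  simp only [K_apply, map_add, Algebra.smul_def]
  module

/-- Normally ordered products with a symmetric coefficient divisible by `(s - t) ^ 4`. -/
theorem K_mem [CharZero F] (h1 : D.ds = dS F) (h2 : D.dt = dT F) (G : C2 F) (hG : swp F G = G) :
    K D la (1 - la) (dl ^ 4 * G) ∈ BB D la := by
  have h := X2_dl D la h1 h2 ((2 : F)⁻¹ • G)
  rw [map_smul, hG, ← add_smul] at h
  have e : (2 : F)⁻¹ + 2⁻¹ = 1 := by norm_num
  rw [e, one_smul] at h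
  rw [← h]
  exact X2_mem D la _

end Pool.Agent.T2h10.WV
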