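import Pool.Agent.T2h10.WV.Memb

/-!
Membership of the first order operators and of the multiplications.
-/

set_option autoImplicit false
set_option linter.unusedSimpArgs false

namespace Pool.Agent.T2h10.WV

open AddMonoidAlgebra

variable {F : Type*} [Field F] {M : Type*} [AddCommGroup M] [Module F M]
  [Module (C2 F) M] [IsScalarTower F (C2 F) M]

variable (D : Conn F (C2 F) M) (la : F)

theorem V_add (A B A' B' : C2 F) :
    V D la (1 - la) (A + A') (B + B') = V D la (1 - la) A B + V D la (1 - la) A' B' := by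
  ext m
  simp only [V_apply, LinearMap.add_apply, map_add, Algebra.smul_def]
  module

theorem V_sub (A B A' B' : C2 F) :
    V D la (1 - la) (A - A') (B - B') = V D la (1 - la) A B - V D la (1 - la) A' B' := by
  ext m
  simp only [V_apply, LinearMap.sub_apply, map_sub, Algebra.smul_def]
  module

theorem V_smul (r : F) (A B : C2 F) :
    V D la (1 - la) (r • A) (r • B) = r • V D la (1 - la) A B := by
  ext m
  simp only [V_apply, LinearMap.smul_apply, D.ds.map_smul, D.dt.map_smul]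
  simp only [Algebra.smul_def]
  module

theorem X_nat (n : ℕ) : X D la (n : ℤ) = V D la (1 - la) (tp 1 ^ n) (sp 1 ^ n) := by
  rw [X, tp_nat, sp_nat]

/-- The first order operators with a symmetric coefficient divisible by `(s - t) ^ 6`. -/
theorem V_mem [CharZero F] (h1 : D.ds = dS F) (h2 : D.dt = dT F) (hl0 : la ≠ 0) (hl1 : la ≠ 1)
    (h : C2 F) (hh : Sym6 h) : V D la (1 - la) h h ∈ BB D la := by
  obtain ⟨G, hG, rfl⟩ := hh
  have p1 : D.ds (sp 1) = 1 := by rw [h1, dS_sp]; simp [sp_zero]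
  have p2 : D.dt (sp 1) = 0 := by rw [h2, dT_sp]
  have p3 : D.ds (tp 1) = 0 := by rw [h1, dS_tp]
  have p4 : D.dt (tp 1) = 1 := by rw [h2, dT_tp]; simp [tp_zero]
  have key := fun m => five D la (1 - la) (sp 1) (tp 1) (dl ^ 4 * G) m p1 p2 p3 p4
  have key2 : V D la (1 - la) ((2 * la * (1 - la)) • (dl ^ 6 * G)) ((2 * la * (1 - la)) • (dl ^ 6 * G)) =
      K D la (1 - la) (dl ^ 4 * G) * X D la ((4 : ℕ) : ℤ) +
      K D la (1 - la) (dl ^ 4 * (-2 * (sp 1 + tp 1) * G)) * X D la ((3 : ℕ) : ℤ) +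
      K D la (1 - la) (dl ^ 4 * (((sp 1 + tp 1) ^ 2 + 2 * (sp 1 * tp 1)) * G)) * X D la ((2 : ℕ) : ℤ) +
      K D la (1 - la) (dl ^ 4 * (-2 * (sp 1 + tp 1) * (sp 1 * tp 1) * G)) * X D la ((1 : ℕ) : ℤ) +
      K D la (1 - la) (dl ^ 4 * ((sp 1 * tp 1) ^ 2 * G)) * X D la ((0 : ℕ) : ℤ) := by
    ext m
    simp only [LinearMap.add_apply, Module.End.mul_apply, X_nat, pow_one, pow_zero]
    have k := key m
    have r1 : (-2 * (sp 1 + tp 1) * (dl ^ 4 * G) : C2 F) = dl ^ 4 * (-2 * (sp 1 + tp 1) * G) := by ring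
    have r2 : (((sp 1 + tp 1) ^ 2 + 2 * (sp 1 * tp 1)) * (dl ^ 4 * G) : C2 F) =
      dl ^ 4 * (((sp 1 + tp 1) ^ 2 + 2 * (sp 1 * tp 1)) * G) := by ring
    have r3 : (-2 * (sp 1 + tp 1) * (sp 1 * tp 1) * (dl ^ 4 * G) : C2 F) =
      dl ^ 4 * (-2 * (sp 1 + tp 1) * (sp 1 * tp 1) * G) := by ring
    have r4 : ((sp 1 * tp 1) ^ 2 * (dl ^ 4 * G) : C2 F) = dl ^ 4 * ((sp 1 * tp 1) ^ 2 * G) := by ring
    have r5 : ((sp 1 - tp 1) ^ 2 * (dl ^ 4 * G) : C2 F) = dl ^ 6 * G := by rw [dl]; ring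
    have r6 : (2 * (1 - la) * (1 - (1 - la)) : F) = 2 * la * (1 - la) := by ring
    rw [r1, r2, r3, r4, r5, r6] at k
    rw [← k]
  rw [V_smul] at key2
  have hk : (2 * la * (1 - la) : F) ≠ 0 :=
    mul_ne_zero (mul_ne_zero two_ne_zero hl0) (sub_ne_zero.2 (Ne.symm hl1))
  have s1 : swp F (sp 1 + tp 1) = (sp 1 + tp 1 : C2 F) := by
    rw [map_add, swp_sp, swp_tp]; ring
  have s2 : swp F (sp 1 * tp 1) = (sp 1 * tp 1 : C2 F) := by
    rw [map_mul, swp_sp, swp_tp]; ring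
  have s3 : swp F (2 : C2 F) = 2 := map_ofNat _ 2
  have mem : (2 * la * (1 - la)) • V D la (1 - la) (dl ^ 6 * G) (dl ^ 6 * G) ∈ BB D la := by
    rw [key2]
    refine add_mem (add_mem (add_mem (add_mem ?_ ?_) ?_) ?_) ?_
    all_goals
      refine mul_mem (K_mem D la h1 h2 _ ?_) (X_mem D la _)
      simp only [map_mul, map_pow, map_neg, s1, s2, s3, hG, map_add, swp_sp, swp_tp]
    all_goals ring
  have := Subalgebra.smul_mem _ mem (2 * la * (1 - la))⁻¹
  rwa [smul_smul, inv_mul_cancel₀ hk, one_smul] at this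

theorem V_brk (A B A' B' : C2 F) :
    V D la (1 - la) (A * D.dt A' + B * D.ds A' - A' * D.dt A - B' * D.ds A)
        (A * D.dt B' + B * D.ds B' - A' * D.dt B - B' * D.ds B) -
      (la - (1 - la)) • ml (D.ds A * D.dt B' - D.ds A' * D.dt B) =
    V D la (1 - la) A B * V D la (1 - la) A' B' - V D la (1 - la) A' B' * V D la (1 - la) A B := by
  ext m
  have := V_bracket D la (1 - la) A B A' B' m
  rw [LinearMap.sub_apply, LinearMap.sub_apply, Module.End.mul_apply, Module.End.mul_apply, this,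
    LinearMap.smul_apply, ml_apply, smul_assoc]

theorem X_brk (h1 : D.ds = dS F) (h2 : D.dt = dT F) (a : ℤ) (A' B' : C2 F) :
    V D la (1 - la) (Lv a A' - (a : F) • (tp (a - 1) * A')) (Lv a B' - (a : F) • (sp (a - 1) * B')) =
    X D la a * V D la (1 - la) A' B' - V D la (1 - la) A' B' * X D la a := by
  rw [X, ← V_brk, h1, h2, dS_tp, dT_sp, dS_sp, dT_tp, Lv_apply, Lv_apply]
  have z : (0 * dT F B' - dS F A' * 0 : C2 F) = 0 := by ring
  rw [z]
  have z2 : (ml (0 : C2 F) : Module.End F M) = 0 := by unfold ml; rw [map_zero]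
  rw [z2, smul_zero, sub_zero]
  congr 1
  · simp only [Algebra.smul_def]; ring
  · simp only [Algebra.smul_def]; ring

theorem VS_mem [CharZero F] (h1 : D.ds = dS F) (h2 : D.dt = dT F) (hl0 : la ≠ 0) (hl1 : la ≠ 1)
    (h : C2 F) (hh : Sym6 h) (n : ℤ) : V D la (1 - la) (h * tp n) (h * sp n) ∈ BB D la := by
  have gen : ∀ (h : C2 F), Sym6 h → ∀ n : ℤ, n ≠ -1 →
      V D la (1 - la) (h * tp n) (h * sp n) ∈ BB D la := by
    intro h hh n hn
    have b := X_brk D la h1 h2 (n + 1) h h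
    rw [V_sub, V_smul] at b
    have hc : (((n + 1 : ℤ)) : F) ≠ 0 := by
      rw [Int.cast_ne_zero]; omega
    have m1 : X D la (n + 1) * V D la (1 - la) h h - V D la (1 - la) h h * X D la (n + 1) ∈ BB D la :=
      sub_mem (mul_mem (X_mem _ _ _) (V_mem D la h1 h2 hl0 hl1 h hh))
        (mul_mem (V_mem D la h1 h2 hl0 hl1 h hh) (X_mem _ _ _))
    rw [← b] at m1
    have m2 := sub_mem (V_mem D la h1 h2 hl0 hl1 _ (hh.lv (n + 1))) m1
    rw [sub_sub_cancel] at m2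
    have m3 := Subalgebra.smul_mem _ m2 (((n + 1 : ℤ)) : F)⁻¹
    rw [smul_smul, inv_mul_cancel₀ hc, one_smul, show n + 1 - 1 = n by ring, mul_comm (tp n),
      mul_comm (sp n)] at m3
    exact m3
  by_cases hn : n = -1
  · subst hn
    have b := X_brk D la h1 h2 (-1) (h * tp 1) (h * sp 1)
    have e1 : (Lv (-1) (h * tp 1) - ((-1 : ℤ) : F) • (tp (-1 - 1) * (h * tp 1)) : C2 F) =
        Lv (-1) h * tp 1 + (2 : F) • (h * tp (-1)) := by
      have : (tp (-1) : C2 F) = tp (-1 - 1) * tp 1 := by rw [← tp_add]; norm_num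
      rw [Lv_apply, Lv_apply, Derivation.leibniz, Derivation.leibniz, dS_tp, dT_tp]
      simp only [smul_eq_mul, Algebra.smul_def, map_ofNat, Int.cast_neg, Int.cast_one, map_neg, map_one,
        sub_self, tp_zero]
      linear_combination (-h) * this
    have e2 : (Lv (-1) (h * sp 1) - ((-1 : ℤ) : F) • (sp (-1 - 1) * (h * sp 1)) : C2 F) =
        Lv (-1) h * sp 1 + (2 : F) • (h * sp (-1)) := by
      have : (sp (-1) : C2 F) = sp (-1 - 1) * sp 1 := by rw [← sp_add]; norm_num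
      rw [Lv_apply, Lv_apply, Derivation.leibniz, Derivation.leibniz, dS_sp, dT_sp]
      simp only [smul_eq_mul, Algebra.smul_def, map_ofNat, Int.cast_neg, Int.cast_one, map_neg, map_one,
        sub_self, sp_zero]
      linear_combination (-h) * this
    rw [e1, e2, V_add, V_smul] at b
    have g1 := gen h hh 1 (by norm_num)
    have m1 : X D la (-1) * V D la (1 - la) (h * tp 1) (h * sp 1) -
        V D la (1 - la) (h * tp 1) (h * sp 1) * X D la (-1) ∈ BB D la :=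
      sub_mem (mul_mem (X_mem _ _ _) g1) (mul_mem g1 (X_mem _ _ _))
    rw [← b] at m1
    have m2 := sub_mem m1 (gen _ (hh.lv (-1)) 1 (by norm_num))
    rw [add_sub_cancel_left] at m2
    have m3 := Subalgebra.smul_mem _ m2 ((2 : F)⁻¹)
    rwa [smul_smul, inv_mul_cancel₀ two_ne_zero, one_smul] at m3
  · exact gen h hh n hn

theorem ml_alt1 [CharZero F] (h1 : D.ds = dS F) (h2 : D.dt = dT F) (hl0 : la ≠ 0) (hl1 : la ≠ 1)
    (hl2 : la - (1 - la) ≠ 0) (j l : ℤ) :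
    (ml (dl ^ 10 * (sp l * tp j - sp j * tp l)) : Module.End F M) ∈ BB D la := by
  have sg : Sym6 (dl ^ 6 : C2 F) := ⟨1, map_one _, by ring⟩
  have b := V_brk D la (dl ^ 6 * tp j) (dl ^ 6 * sp j) (dl ^ 6 * tp l) (dl ^ 6 * sp l)
  have m1 : V D la (1 - la) (dl ^ 6 * tp j) (dl ^ 6 * sp j) * V D la (1 - la) (dl ^ 6 * tp l) (dl ^ 6 * sp l) -
      V D la (1 - la) (dl ^ 6 * tp l) (dl ^ 6 * sp l) * V D la (1 - la) (dl ^ 6 * tp j) (dl ^ 6 * sp j)
      ∈ BB D la :=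
    sub_mem (mul_mem (VS_mem D la h1 h2 hl0 hl1 _ sg _) (VS_mem D la h1 h2 hl0 hl1 _ sg _))
      (mul_mem (VS_mem D la h1 h2 hl0 hl1 _ sg _) (VS_mem D la h1 h2 hl0 hl1 _ sg _))
  rw [← b, h1, h2] at m1
  have eA : (dl ^ 6 * tp j * dT F (dl ^ 6 * tp l) + dl ^ 6 * sp j * dS F (dl ^ 6 * tp l) -
      dl ^ 6 * tp l * dT F (dl ^ 6 * tp j) - dl ^ 6 * sp l * dS F (dl ^ 6 * tp j) : C2 F) =
      (Lv j (dl ^ 6) * dl ^ 6) * tp l - (Lv l (dl ^ 6) * dl ^ 6) * tp j +
        ((l : F) - (j : F)) • (dl ^ 6 * dl ^ 6 * tp (j + l - 1)) := by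
    have t1 : (tp (j + l - 1) : C2 F) = tp j * tp (l - 1) := by rw [← tp_add]; congr 1; ring
    have t2 : (tp (j + l - 1) : C2 F) = tp l * tp (j - 1) := by rw [← tp_add]; congr 1; ring
    rw [sub_smul]
    nth_rewrite 1 [t1]
    rw [t2, Lv_apply, Lv_apply]
    simp only [Derivation.leibniz, dS_tp, dT_tp, smul_eq_mul, Algebra.smul_def]
    ring
  have eB : (dl ^ 6 * tp j * dT F (dl ^ 6 * sp l) + dl ^ 6 * sp j * dS F (dl ^ 6 * sp l) -
      dl ^ 6 * tp l * dT F (dl ^ 6 * sp j) - dl ^ 6 * sp l * dS F (dl ^ 6 * sp j) : C2 F) =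
      (Lv j (dl ^ 6) * dl ^ 6) * sp l - (Lv l (dl ^ 6) * dl ^ 6) * sp j +
        ((l : F) - (j : F)) • (dl ^ 6 * dl ^ 6 * sp (j + l - 1)) := by
    have t1 : (sp (j + l - 1) : C2 F) = sp j * sp (l - 1) := by rw [← sp_add]; congr 1; ring
    have t2 : (sp (j + l - 1) : C2 F) = sp l * sp (j - 1) := by rw [← sp_add]; congr 1; ring
    rw [sub_smul]
    nth_rewrite 1 [t1]
    rw [t2, Lv_apply, Lv_apply]
    simp only [Derivation.leibniz, dS_sp, dT_sp, smul_eq_mul, Algebra.smul_def]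
    ring
  have eC : (dS F (dl ^ 6 * tp j) * dT F (dl ^ 6 * sp l) - dS F (dl ^ 6 * tp l) * dT F (dl ^ 6 * sp j) :
      C2 F) = (-36 : F) • (dl ^ 10 * (sp l * tp j - sp j * tp l)) := by
    simp only [Derivation.leibniz, Derivation.leibniz_pow, dS_tp, dT_sp, dS_dl, dT_dl, smul_eq_mul,
      Algebra.smul_def, nsmul_eq_mul, Nat.add_one_sub_one, Nat.reduceSub, map_neg, map_ofNat]
    push_cast
    ring
  rw [eA, eB, eC, V_add, V_sub, V_smul, ml_smul, smul_smul] at m1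
  have sgs : swp F (dl ^ 6) = (dl ^ 6 : C2 F) := sg.swp
  have m2 : V D la (1 - la) (Lv j (dl ^ 6) * dl ^ 6 * tp l) (Lv j (dl ^ 6) * dl ^ 6 * sp l) -
        V D la (1 - la) (Lv l (dl ^ 6) * dl ^ 6 * tp j) (Lv l (dl ^ 6) * dl ^ 6 * sp j) +
      ((l : F) - (j : F)) • V D la (1 - la) (dl ^ 6 * dl ^ 6 * tp (j + l - 1)) (dl ^ 6 * dl ^ 6 * sp (j + l - 1))
      ∈ BB D la := by
    refine add_mem (sub_mem ?_ ?_) (Subalgebra.smul_mem _ ?_ _)
    · exact VS_mem D la h1 h2 hl0 hl1 _ ((sg.lv j).mul sgs) l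
    · exact VS_mem D la h1 h2 hl0 hl1 _ ((sg.lv l).mul sgs) j
    · exact VS_mem D la h1 h2 hl0 hl1 _ (sg.mul sgs) _
  have m3 := sub_mem m2 m1
  rw [sub_sub_cancel] at m3
  have hk : (la - (1 - la)) * (-36 : F) ≠ 0 := mul_ne_zero hl2 (by norm_num)
  have m4 := Subalgebra.smul_mem _ m3 ((la - (1 - la)) * (-36 : F))⁻¹
  rwa [smul_smul, inv_mul_cancel₀ hk, one_smul] at m4

theorem ml_alt2 [CharZero F] (h1 : D.ds = dS F) (h2 : D.dt = dT F) (hl0 : la ≠ 0) (hl1 : la ≠ 1)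
    (hl2 : la - (1 - la) ≠ 0) (E : C2 F) :
    (ml (dl ^ 10 * (E - swp F E)) : Module.End F M) ∈ BB D la := by
  induction E using AddMonoidAlgebra.induction_linear with
  | zero =>
    rw [map_zero, sub_zero, mul_zero]
    have z2 : (ml (0 : C2 F) : Module.End F M) = 0 := by unfold ml; rw [map_zero]
    rw [z2]; exact zero_mem _
  | add a a' ha ha' =>
    rw [map_add, show dl ^ 10 * (a + a' - (swp F a + swp F a')) =
      dl ^ 10 * (a - swp F a) + dl ^ 10 * (a' - swp F a') by ring, ml_add]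
    exact add_mem ha ha'
  | single g r =>
    obtain ⟨a, b⟩ := g
    rw [swp_single, sp_mul_tp, sp_mul_tp, ← smul_sub, mul_smul_comm, ml_smul]
    exact Subalgebra.smul_mem _ (ml_alt1 D la h1 h2 hl0 hl1 hl2 b a) _

theorem ml_alt [CharZero F] (h1 : D.ds = dS F) (h2 : D.dt = dT F) (hl0 : la ≠ 0) (hl1 : la ≠ 1)
    (hl2 : la - (1 - la) ≠ 0) (E : C2 F) (hE : swp F E = -E) :
    (ml (dl ^ 10 * E) : Module.End F M) ∈ BB D la := by
  have := ml_alt2 (M := M) D la h1 h2 hl0 hl1 hl2 ((2 : F)⁻¹ • E)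
  rw [map_smul, hE, smul_neg, sub_neg_eq_add, ← add_smul] at this
  have e : (2 : F)⁻¹ + 2⁻¹ = 1 := by norm_num
  rwa [e, one_smul] at this

/-- Every multiple of `(s - t) ^ 22` acts by an element of the algebra. -/
theorem ml_mem [CharZero F] (h1 : D.ds = dS F) (h2 : D.dt = dT F) (hl0 : la ≠ 0) (hl1 : la ≠ 1)
    (hl2 : la - (1 - la) ≠ 0) (E : C2 F) :
    (ml (dl ^ 22 * E) : Module.End F M) ∈ BB D la := by
  have hs : (ml (dl ^ 22 * (E + swp F E)) : Module.End F M) ∈ BB D la := by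
    rw [show dl ^ 22 * (E + swp F E) = (dl ^ 10 * dl) * (dl ^ 10 * (dl * (E + swp F E))) by ring, ml_mul]
    refine mul_mem (ml_alt D la h1 h2 hl0 hl1 hl2 _ swp_dl) (ml_alt D la h1 h2 hl0 hl1 hl2 _ ?_)
    rw [map_mul, map_add, swp_swp, swp_dl]; ring
  have ha : (ml (dl ^ 22 * (E - swp F E)) : Module.End F M) ∈ BB D la := by
    rw [show dl ^ 22 * (E - swp F E) = dl ^ 10 * (dl ^ 12 * (E - swp F E)) by ring]
    refine ml_alt D la h1 h2 hl0 hl1 hl2 _ ?_
    rw [map_mul, map_sub, swp_swp, map_pow, swp_dl]; ring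
  have := Subalgebra.smul_mem _ (add_mem hs ha) ((2 : F)⁻¹)
  rw [← ml_add, ← ml_smul] at this
  have e : (2 : F)⁻¹ • (dl ^ 22 * (E + swp F E) + dl ^ 22 * (E - swp F E)) = dl ^ 22 * E := by
    rw [show dl ^ 22 * (E + swp F E) + dl ^ 22 * (E - swp F E) = (2 : F) • (dl ^ 22 * E) by
      rw [Algebra.smul_def, map_ofNat]; ring, smul_smul, inv_mul_cancel₀ two_ne_zero, one_smul]
  rwa [e] at this

end Pool.Agent.T2h10.WV
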