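import Pool.Agent.T2h10.WV.Delta

/-!
The module of delta functions is faithful over the Laurent polynomials and simple over the algebra
generated by the action of the Witt algebra.
-/

set_option autoImplicit false
set_option linter.unusedSimpArgs false

namespace Pool.Agent.T2h10.WV

open AddMonoidAlgebra

section Faithful

variable {F : Type*} [Field F]

theorem coeff_lop_id {G : Type*} (l : G → F) (c : AddMonoidAlgebra F G) (g : G) :
    (lop l id c).coeff g = l g * c.coeff g := by
  classical
  induction c using AddMonoidAlgebra.induction_linear with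
  | zero => simp
  | add a a' ha ha' => rw [map_add, coeff_add, Finsupp.add_apply, ha, ha', coeff_add,
      Finsupp.add_apply]; ring
  | single h r =>
    rw [lop_single, coeff_single, coeff_single, Finsupp.single_apply, Finsupp.single_apply]
    by_cases hg : h = g
    · subst hg; simp
    · simp [hg]

theorem euler_s (c : C2 F) : lop (fun g : ℤ × ℤ => (g.1 : F)) id c = sp 1 * dS F c := by
  induction c using AddMonoidAlgebra.induction_linear with
  | zero => simp
  | add a a' ha ha' => rw [map_add, map_add, mul_add, ha, ha']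
  | single g r =>
    obtain ⟨a, b⟩ := g
    rw [lop_single, dS_single, sp, single_mul_single]
    simp

theorem euler_t (c : C2 F) : lop (fun g : ℤ × ℤ => (g.2 : F)) id c = tp 1 * dT F c := by
  induction c using AddMonoidAlgebra.induction_linear with
  | zero => simp
  | add a a' ha ha' => rw [map_add, map_add, mul_add, ha, ha']
  | single g r =>
    obtain ⟨a, b⟩ := g
    rw [lop_single, dT_single, tp, single_mul_single]
    simp

variable {M : Type*} [AddCommGroup M] [Module F M] [Module (C2 F) M] [IsScalarTower F (C2 F) M]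

/-- A nonzero module with connections is faithful. -/
theorem faithful [CharZero F] [Nontrivial M] (D : Conn F (C2 F) M) (h1 : D.ds = dS F)
    (h2 : D.dt = dT F) (c : C2 F) (hc : ∀ m : M, c • m = 0) : c = 0 := by
  classical
  have key : ∀ n : ℕ, ∀ c : C2 F, c.coeff.support.card ≤ n → (∀ m : M, c • m = 0) → c = 0 := by
    intro n
    induction n with
    | zero =>
      intro c hn _
      have : c.coeff.support = ∅ := Finset.card_eq_zero.1 (by omega)
      rw [Finsupp.support_eq_empty] at this
      exact coeff_eq_zero.1 this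
    | succ n ih =>
      intro c hn hc
      by_contra hne
      have hsupp : c.coeff.support.Nonempty := by
        rw [Finsupp.support_nonempty_iff]
        intro h; exact hne (coeff_eq_zero.1 h)
      obtain ⟨⟨a, b⟩, hab⟩ := hsupp
      have dsI : ∀ m : M, dS F c • m = 0 := by
        intro m
        have h3 := D.hP c m
        rw [hc, map_zero, hc, zero_add, h1] at h3
        exact h3.symm
      have dtI : ∀ m : M, dT F c • m = 0 := by
        intro m
        have h3 := D.hQ c m
        rw [hc, map_zero, hc, zero_add, h2] at h3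
        exact h3.symm
      have red : ∀ (l : ℤ × ℤ → F) (c' : C2 F), (∀ g, c'.coeff g = (l g - l (a, b)) * c.coeff g) →
          (∀ m : M, c' • m = 0) → c' = 0 := by
        intro l c' hc' hI
        apply ih c' _ hI
        have hsub : c'.coeff.support ⊆ c.coeff.support.erase (a, b) := by
          intro g hg
          rw [Finsupp.mem_support_iff, hc'] at hg
          rw [Finset.mem_erase]
          constructor
          · rintro rfl
            apply hg; rw [sub_self, zero_mul]
          · rw [Finsupp.mem_support_iff]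
            intro h0; apply hg; rw [h0, mul_zero]
        have h4 := Finset.card_le_card hsub
        rw [Finset.card_erase_of_mem hab] at h4
        omega
      have e1 := red (fun g => (g.1 : F)) (lop (fun g : ℤ × ℤ => (g.1 : F)) id c - (a : F) • c) (by
        intro g
        rw [coeff_sub, Finsupp.sub_apply, coeff_lop_id, coeff_smul, Finsupp.smul_apply, smul_eq_mul]
        ring) (by
        intro m
        rw [sub_smul, euler_s, mul_smul, dsI, smul_zero, smul_assoc, hc, smul_zero, sub_zero])
      have e2 := red (fun g => (g.2 : F)) (lop (fun g : ℤ × ℤ => (g.2 : F)) id c - (b : F) • c) (by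
        intro g
        rw [coeff_sub, Finsupp.sub_apply, coeff_lop_id, coeff_smul, Finsupp.smul_apply, smul_eq_mul]
        ring) (by
        intro m
        rw [sub_smul, euler_t, mul_smul, dtI, smul_zero, smul_assoc, hc, smul_zero, sub_zero])
      have hmono : c = single (a, b) (c.coeff (a, b)) := by
        apply AddMonoidAlgebra.ext
        ext ⟨a', b'⟩
        rw [coeff_single, Finsupp.single_apply]
        by_cases h0 : c.coeff (a', b') = 0
        · rw [h0]
          split_ifs with h
          · rw [← h] at h0; exact h0.symm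
          · rfl
        · have f1 := congrArg (fun z : C2 F => z.coeff (a', b')) e1
          have f2 := congrArg (fun z : C2 F => z.coeff (a', b')) e2
          simp only [coeff_sub, Finsupp.sub_apply, coeff_lop_id, coeff_smul, Finsupp.smul_apply,
            smul_eq_mul, coeff_zero, Finsupp.coe_zero, Pi.zero_apply] at f1 f2
          rw [← sub_mul] at f1 f2
          have g1 : (a' : F) - a = 0 := (mul_eq_zero.1 f1).resolve_right h0
          have g2 : (b' : F) - b = 0 := (mul_eq_zero.1 f2).resolve_right h0
          rw [sub_eq_zero, Int.cast_inj] at g1 g2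
          rw [g1, g2, if_pos rfl]
      have hr : c.coeff (a, b) ≠ 0 := Finsupp.mem_support_iff.1 hab
      obtain ⟨m, hm⟩ := exists_ne (0 : M)
      apply hm
      have h5 : (single (-a, -b) (c.coeff (a, b))⁻¹ : C2 F) * c = 1 := by
        nth_rewrite 2 [hmono]
        rw [single_mul_single, inv_mul_cancel₀ hr]
        simp; rfl
      rw [← one_smul (C2 F) m, ← h5, mul_smul, hc, smul_zero]
  exact key _ c le_rfl hc

end Faithful

section Simple

variable {F : Type} [Field F] [CharZero F]

theorem sp_smul (v : DM F) : (sp 1 : C2 F) • v = v - dd F 0 v := by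
  rw [smul_rho, sp, rho_single, one_smul, zpow_one, zpow_zero, mul_one, uS_val]
  rfl

theorem tp_smul (v : DM F) : (tp 1 : C2 F) • v = (2 : F) • v - dd F 1 v := by
  rw [smul_rho, tp, rho_single, one_smul, zpow_one, zpow_zero, one_mul, uT_val, LinearMap.sub_apply]
  congr 1
  have h2 : (2 : Module.End F (DM F)) = 1 + 1 := one_add_one_eq_two.symm
  rw [two_smul, h2]
  rfl

theorem dl_ln (v : DM F) : ∃ n : ℕ, ((dl + 1 : C2 F) ^ n) • v = 0 := by
  obtain ⟨n, hn⟩ := dd_ln (-1 : F) 1 v
  refine ⟨n, ?_⟩
  have e : rho F (dl + 1) = (-1 : F) • dd F 0 + (1 : F) • dd F 1 := by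
    apply LinearMap.ext
    intro w
    have : rho F (dl + 1) w = (dl + 1 : C2 F) • w := rfl
    rw [this, dl, add_smul, sub_smul, sp_smul, tp_smul, one_smul]
    simp only [LinearMap.add_apply, LinearMap.smul_apply]
    module
  rw [smul_rho, map_pow, e]
  exact hn

theorem coprime_dl (n k : ℕ) : IsCoprime ((dl : C2 F) ^ n) ((dl + 1) ^ k) := by
  apply IsCoprime.pow
  exact ⟨-1, 1, by ring⟩

variable (la : F) (hl0 : la ≠ 0) (hl1 : la ≠ 1) (hl2 : la - (1 - la) ≠ 0)

include hl0 hl1 hl2 in
theorem smul_mem_of_stable (N : Submodule F (DM F)) (hN : ∀ a : ℤ, ∀ v ∈ N, X (DD F) la a v ∈ N)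
    (c : C2 F) (v : DM F) (hv : v ∈ N) : c • v ∈ N := by
  have hB : ∀ b ∈ BB (DD F) la, ∀ v ∈ N, b v ∈ N := by
    intro b hb
    unfold BB at hb
    induction hb using Algebra.adjoin_induction with
    | mem x hx => obtain ⟨a, rfl⟩ := hx; exact hN a
    | algebraMap r => intro v hv; exact N.smul_mem r hv
    | add x y _ _ hx hy => intro v hv; exact N.add_mem (hx v hv) (hy v hv)
    | mul x y _ _ hx hy => intro v hv; exact hx _ (hy v hv)
  obtain ⟨k, hk⟩ := dl_ln v
  obtain ⟨u, w, huw⟩ := coprime_dl (F := F) 22 k
  have h1 := hB _ (ml_mem (DD F) la rfl rfl hl0 hl1 hl2 (c * u)) v hv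
  rw [ml_apply] at h1
  have h2 : c • v = (dl ^ 22 * (c * u) : C2 F) • v := by
    calc c • v = (c * (u * dl ^ 22 + w * (dl + 1) ^ k) : C2 F) • v := by rw [huw, mul_one]
      _ = (dl ^ 22 * (c * u) + (c * w) * (dl + 1) ^ k : C2 F) • v := by congr 1; ring
      _ = _ := by rw [add_smul, mul_smul (c * w), hk, smul_zero, add_zero]
  rw [h2]
  exact h1

include hl0 hl1 hl2 in
/-- The module of delta functions is simple over the algebra generated by the Witt algebra. -/
theorem top_of_stable (N : Submodule F (DM F)) (hN : ∀ a : ℤ, ∀ v ∈ N, X (DD F) la a v ∈ N)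
    (h0 : N ≠ ⊥) : N = ⊤ := by
  have hC := smul_mem_of_stable la hl0 hl1 hl2 N hN
  have x0 : ∀ v : DM F, X (DD F) la 0 v = xx F 1 v + xx F 0 v := by
    intro v
    rw [X, V_apply, tp_zero, sp_zero, one_smul, one_smul, Derivation.map_one_eq_zero,
      Derivation.map_one_eq_zero, smul_zero, smul_zero, zero_smul, add_zero, add_zero]
    rfl
  have x1 : ∀ v : DM F, X (DD F) la 1 v = (tp 1 : C2 F) • xx F 1 v + (sp 1 : C2 F) • xx F 0 v + v := by
    intro v
    rw [X, V_apply]
    change (tp 1 : C2 F) • xx F 1 v + ((1 - la) • dT F (tp 1)) • v + (sp 1 : C2 F) • xx F 0 v +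
      (la • dS F (sp 1)) • v = _
    rw [dT_tp, dS_sp, sub_self, tp_zero, sp_zero, Int.cast_one, one_smul, smul_assoc, smul_assoc, one_smul]
    module
  have hQ : ∀ v ∈ N, xx F 1 v ∈ N := by
    intro v hv
    have h1 : (dl : C2 F) • xx F 1 v ∈ N := by
      have h2 : (dl : C2 F) • xx F 1 v = v + (sp 1 : C2 F) • X (DD F) la 0 v - X (DD F) la 1 v := by
        rw [x0, x1, dl]
        module
      rw [h2]
      exact N.sub_mem (N.add_mem hv (hC _ _ (hN 0 v hv))) (hN 1 v hv)
    obtain ⟨k, hk⟩ := dl_ln (xx F 1 v)
    obtain ⟨u, w, huw⟩ := coprime_dl (F := F) 1 k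
    have h3 : xx F 1 v = u • ((dl : C2 F) • xx F 1 v) := by
      calc xx F 1 v = (u * dl ^ 1 + w * (dl + 1) ^ k : C2 F) • xx F 1 v := by rw [huw, one_smul]
        _ = _ := by rw [add_smul, mul_smul w, hk, smul_zero, add_zero, pow_one, mul_smul]
    rw [h3]
    exact hC _ _ h1
  have hP : ∀ v ∈ N, xx F 0 v ∈ N := by
    intro v hv
    have h1 := hN 0 v hv
    rw [x0] at h1
    have h2 := N.sub_mem h1 (hQ v hv)
    rwa [add_sub_cancel_left] at h2
  have hd : ∀ i : Fin 2, ∀ v ∈ N, MvPolynomial.pderiv i v ∈ N := by
    have hd0 : ∀ v ∈ N, dd F 0 v ∈ N := by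
      intro v hv
      have h1 := N.sub_mem hv (hC (sp 1) v hv)
      rwa [sp_smul, sub_sub_cancel] at h1
    have hd1 : ∀ v ∈ N, dd F 1 v ∈ N := by
      intro v hv
      have h1 := N.sub_mem (N.smul_mem (2 : F) hv) (hC (tp 1) v hv)
      rwa [tp_smul, sub_sub_cancel] at h1
    intro i
    fin_cases i
    · exact hd0
    · exact hd1
  obtain ⟨v, hv, hv0⟩ := N.ne_bot_iff.1 h0
  have one := Pool.Agent.R693.G.one_mem_of_stable N hd _ v le_rfl hv hv0
  rw [eq_top_iff]
  intro f _
  induction f using MvPolynomial.induction_on with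
  | C a =>
    have : (MvPolynomial.C a : DM F) = a • (1 : DM F) := by
      rw [MvPolynomial.smul_eq_C_mul, mul_one]
    rw [this]
    exact N.smul_mem a one
  | add p q hp hq => exact N.add_mem (hp trivial) (hq trivial)
  | mul_X p i hp =>
    rw [mul_comm]
    fin_cases i
    · exact hP p (hp trivial)
    · exact hQ p (hp trivial)

end Simple

end Pool.Agent.T2h10.WV
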